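import Mathlib

/-!
# Nilpotent normal subgroups all of whose invariant abelian subgroups are cyclic

`lemS`: if `P` is a nilpotent normal subgroup of a finite group `L` such that every abelian normal
subgroup of `L` inside `P` is cyclic, then `⁅P, P⁆` is abelian (a part of a theorem of P. Hall).
-/

namespace Pool.Agent.INW

open Subgroup
open scoped commutatorElement

section

variable {L : Type*} [Group L]

/-- A normal subgroup `R` of `L`, contained in a nilpotent normal subgroup `P` and not contained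
in the normal subgroup `U`, contains an element outside `U` that is central modulo `U`. -/
theorem exists_central_mod (P R U : Subgroup L) [R.Normal] [hP : Group.IsNilpotent P]
    (hRP : R ≤ P) (hRU : ¬ R ≤ U) :
    ∃ g ∈ R, g ∉ U ∧ ∀ t ∈ P, ⁅g, t⁆ ∈ U := by
  classical
  let f : ℕ → Subgroup L := fun n =>
    Nat.rec (motive := fun _ => Subgroup L) R (fun _ A => ⁅A, P⁆) n
  have f0 : f 0 = R := rfl
  have fs : ∀ n, f (n + 1) = ⁅f n, P⁆ := fun n => rfl
  have h1 : ∀ n, f n ≤ P.lowerCentralSeries n := by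
    intro n
    induction n with
    | zero => exact hRP
    | succ n ih =>
      rw [fs, Subgroup.lowerCentralSeries_succ]
      exact Subgroup.commutator_mono ih le_rfl
  have h2 : ∀ n, f n ≤ R := by
    intro n
    induction n with
    | zero => exact le_rfl
    | succ n ih =>
      rw [fs]
      exact (Subgroup.commutator_mono ih le_rfl).trans (Subgroup.commutator_le_left R P)
  obtain ⟨n, hn⟩ := (Subgroup.isNilpotent_iff_lowerCentralSeries (S := P)).1 hP
  have hex : ∃ n, f n ≤ U := ⟨n, (h1 n).trans (hn.trans_le bot_le)⟩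
  obtain ⟨n, hs, hmin⟩ : ∃ n, f n ≤ U ∧ ∀ m < n, ¬ f m ≤ U :=
    ⟨Nat.find hex, Nat.find_spec hex, fun m hm => Nat.find_min hex hm⟩
  rcases n with _ | m
  · exact absurd hs hRU
  · have hlt : ¬ f m ≤ U := hmin m (by omega)
    rw [fs] at hs
    obtain ⟨g, hg, hgU⟩ := SetLike.not_le_iff_exists.1 hlt
    exact ⟨g, h2 m hg, hgU, fun t ht => hs (Subgroup.commutator_mem_commutator hg ht)⟩

/-- The elements of `L` that are central modulo `U` for `P`. -/
def relCent (P U : Subgroup L) [U.Normal] : Subgroup L where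
  carrier := {g | ∀ t ∈ P, ⁅g, t⁆ ∈ U}
  one_mem' := fun t _ => by simp
  mul_mem' := by
    intro a b ha hb t ht
    have : ⁅a * b, t⁆ = (a * ⁅b, t⁆ * a⁻¹) * ⁅a, t⁆ := by
      simp only [commutatorElement_def]; group
    rw [this]
    exact U.mul_mem (Subgroup.Normal.conj_mem inferInstance _ (hb t ht) a) (ha t ht)
  inv_mem' := by
    intro a ha t ht
    have : ⁅a⁻¹, t⁆ = a⁻¹ * ⁅a, t⁆⁻¹ * (a⁻¹)⁻¹ := by
      simp only [commutatorElement_def]; group
    rw [this]
    exact Subgroup.Normal.conj_mem inferInstance _ (U.inv_mem (ha t ht)) a⁻¹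

theorem mem_relCent {P U : Subgroup L} [U.Normal] {g : L} :
    g ∈ relCent P U ↔ ∀ t ∈ P, ⁅g, t⁆ ∈ U := Iff.rfl

instance relCent_normal (P U : Subgroup L) [U.Normal] [P.Normal] : (relCent P U).Normal where
  conj_mem := by
    intro n hn g t ht
    have : ⁅g * n * g⁻¹, t⁆ = g * ⁅n, g⁻¹ * t * g⁻¹⁻¹⁆ * g⁻¹ := by
      simp only [commutatorElement_def]; group
    rw [this]
    exact Subgroup.Normal.conj_mem inferInstance _
      (hn _ (Subgroup.Normal.conj_mem inferInstance _ ht g⁻¹)) g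

end

section

variable {L : Type*} [Group L] [Finite L]

/-- The number of homomorphisms from a finite group to `ℂˣ` is at most the order of the group. -/
theorem card_hom_le (B : Type*) [Group B] [Finite B] :
    Finite (B →* ℂˣ) ∧ Nat.card (B →* ℂˣ) ≤ Nat.card B := by
  classical
  have := Fintype.ofFinite B
  have hli := linearIndependent_monoidHom B ℂ
  have hfin : Finite (B →* ℂ) := by
    have := hli.finite
    exact this
  have hle : Nat.card (B →* ℂ) ≤ Nat.card B := by
    have := Fintype.ofFinite (B →* ℂ)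
    have h1 := hli.fintype_card_le_finrank
    rw [Module.finrank_fintype_fun_eq_card] at h1
    simpa [Nat.card_eq_fintype_card] using h1
  let F : (B →* ℂˣ) → (B →* ℂ) := fun φ => (Units.coeHom ℂ).comp φ
  have hF : Function.Injective F := by
    intro φ ψ h
    ext b
    exact congrArg (fun χ : B →* ℂ => χ b) h
  exact ⟨Finite.of_injective F hF, (Nat.card_le_card_of_injective F hF).trans hle⟩

/-- A finite cyclic group embeds in `ℂˣ`. -/
theorem exists_injective_hom (U : Type*) [Group U] [Finite U] [IsCyclic U] :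
    ∃ φ : U →* ℂˣ, Function.Injective φ := by
  obtain ⟨g, hg⟩ := IsCyclic.exists_generator (α := U)
  have hpos : orderOf g ≠ 0 := (orderOf_pos g).ne'
  have hprim := Complex.isPrimitiveRoot_exp (orderOf g) hpos
  have hu := hprim.isUnit hpos
  have hprim' : IsPrimitiveRoot hu.unit (orderOf g) := by
    rw [← IsPrimitiveRoot.coe_units_iff]
    exact hprim
  refine ⟨monoidHomOfForallMemZpowers hg (g' := hu.unit) hprim'.eq_orderOf.symm.dvd, ?_⟩
  rw [injective_iff_map_eq_one]
  intro a ha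
  obtain ⟨k, rfl⟩ := hg a
  simp only [map_zpow, monoidHomOfForallMemZpowers_apply_gen] at ha
  have h1 := orderOf_dvd_iff_zpow_eq_one.2 ha
  rw [← hprim'.eq_orderOf] at h1
  exact orderOf_dvd_iff_zpow_eq_one.1 h1

/-- **Lemma S.** Let `P` be a nilpotent normal subgroup of a finite group `L` such that every
abelian normal subgroup of `L` contained in `P` is cyclic. Then `⁅P, P⁆` is abelian. -/
theorem lemS (P : Subgroup L) [hPn : P.Normal] [hP : Group.IsNilpotent P]
    (hyp : ∀ A : Subgroup L, A ≤ P → A.Normal → (∀ a ∈ A, ∀ b ∈ A, a * b = b * a) → IsCyclic A) :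
    ∀ a ∈ ⁅P, P⁆, ∀ b ∈ ⁅P, P⁆, a * b = b * a := by
  classical
  -- a maximal abelian normal subgroup inside `P`
  let S : Set (Subgroup L) := {A | A ≤ P ∧ A.Normal ∧ ∀ a ∈ A, ∀ b ∈ A, a * b = b * a}
  have hSne : S.Nonempty := ⟨⊥, bot_le, inferInstance, by
    intro a ha b hb
    rw [Subgroup.mem_bot] at ha hb
    rw [ha, hb]⟩
  obtain ⟨U, hU⟩ := (Set.toFinite S).exists_maximal hSne
  obtain ⟨hUP, hUn, hUc⟩ := hU.prop
  have hmax : ∀ A : Subgroup L, A ≤ P → A.Normal → (∀ a ∈ A, ∀ b ∈ A, a * b = b * a) →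
      U ≤ A → A ≤ U := fun A h1 h2 h3 h4 => hU.le_of_ge ⟨h1, h2, h3⟩ h4
  have hUcyc : IsCyclic U := hyp U hUP hUn hUc
  -- `Q = C_P(U)`
  let Q : Subgroup L := P ⊓ Subgroup.centralizer (U : Set L)
  have hQn : Q.Normal := inferInstance
  have hQU : ∀ q ∈ Q, ∀ u ∈ U, q * u = u * q := fun q hq u hu =>
    (Subgroup.mem_centralizer_iff.1 hq.2 u hu).symm
  have hUQ : U ≤ Q := le_inf hUP (fun u hu => Subgroup.mem_centralizer_iff.2
    (fun v hv => hUc v hv u hu))
  -- `C = {g ∈ Q : ⁅g, P⁆ ≤ U}`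
  let C : Subgroup L := Q ⊓ relCent P U
  have hCn : C.Normal := inferInstance
  have hUC : U ≤ C := le_inf hUQ (fun u hu t ht => by
    rw [commutatorElement_def]
    have : u * t * u⁻¹ * t⁻¹ = u * (t * u⁻¹ * t⁻¹) := by group
    rw [this]
    exact U.mul_mem hu (hUn.conj_mem _ (U.inv_mem hu) t))
  -- `C_P(C) = U`
  have hcent : ∀ g ∈ P, (∀ c ∈ C, c * g = g * c) → g ∈ U := by
    by_contra hcon
    push Not at hcon
    obtain ⟨g, hgP, hgc, hgU⟩ := hcon
    let R : Subgroup L := P ⊓ Subgroup.centralizer (C : Set L)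
    have hRU : ¬ R ≤ U := fun h => hgU (h ⟨hgP, Subgroup.mem_centralizer_iff.2 hgc⟩)
    obtain ⟨r, hrR, hrU, hrc⟩ := exists_central_mod P R U inf_le_left hRU
    have hrQ : r ∈ Q := ⟨hrR.1, Subgroup.mem_centralizer_iff.2 (fun u hu =>
      Subgroup.mem_centralizer_iff.1 hrR.2 u (hUC hu))⟩
    have hrC : r ∈ C := ⟨hrQ, hrc⟩
    -- the centre of `C`
    let Z : Subgroup L := C ⊓ Subgroup.centralizer (C : Set L)
    have hZ : Z ≤ U := hmax Z (fun z hz => hz.1.1.1) inferInstance (fun a ha b hb =>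
      Subgroup.mem_centralizer_iff.1 hb.2 a ha.1) (fun u hu => ⟨hUC hu,
        Subgroup.mem_centralizer_iff.2 (fun c hc => hQU c hc.1 u hu)⟩)
    exact hrU (hZ ⟨hrC, hrR.2⟩)
  -- `Q ≤ C` by counting homomorphisms
  have hQC : Q ≤ C := by
    obtain ⟨ι, hι⟩ := exists_injective_hom U
    have hmem : ∀ g ∈ Q, ∀ c ∈ C, ⁅g, c⁆ ∈ U := fun g hg c hc => by
      have := U.inv_mem (hc.2 g hg.1)
      rwa [commutatorElement_inv] at this
    have : (U.subgroupOf C).Normal := inferInstance
    let B := C ⧸ (U.subgroupOf C)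
    let Φ0 : Q → (C →* ℂˣ) := fun g =>
      { toFun := fun c => ι ⟨⁅(g : L), (c : L)⁆, hmem g g.2 c c.2⟩
        map_one' := by
          rw [← map_one ι]
          congr 1
          apply Subtype.ext
          simp
        map_mul' := fun c c' => by
          rw [← map_mul ι]
          congr 1
          apply Subtype.ext
          have h1 : ⁅(g : L), (c' : L)⁆ ∈ U := hmem g g.2 c' c'.2
          have h2 : (c : L) * ⁅(g : L), (c' : L)⁆ = ⁅(g : L), (c' : L)⁆ * c :=
            hQU c c.2.1 _ h1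
          have h3 : ⁅(g : L), ((c * c' : C) : L)⁆ = ⁅(g : L), (c : L)⁆ *
              (c * ⁅(g : L), (c' : L)⁆) * (c : L)⁻¹ := by
            simp only [commutatorElement_def, Subgroup.coe_mul]; group
          change ⁅(g : L), ((c * c' : C) : L)⁆ = ⁅(g : L), (c : L)⁆ * ⁅(g : L), (c' : L)⁆
          rw [h3, h2]
          group }
    have hker : ∀ g : Q, U.subgroupOf C ≤ (Φ0 g).ker := by
      intro g c hc
      rw [MonoidHom.mem_ker]
      change ι _ = 1
      rw [← map_one ι]
      congr 1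
      apply Subtype.ext
      change ⁅(g : L), (c : L)⁆ = 1
      rw [commutatorElement_eq_one_iff_mul_comm]
      exact hQU g g.2 c hc
    let Φ : Q →* (B →* ℂˣ) :=
      { toFun := fun g => QuotientGroup.lift (U.subgroupOf C) (Φ0 g) (hker g)
        map_one' := by
          refine MonoidHom.ext (fun b => ?_)
          obtain ⟨c, rfl⟩ := QuotientGroup.mk_surjective b
          rw [QuotientGroup.lift_mk]
          change ι _ = 1
          rw [← map_one ι]
          congr 1
          apply Subtype.ext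
          simp
        map_mul' := fun g g' => by
          refine MonoidHom.ext (fun b => ?_)
          obtain ⟨c, rfl⟩ := QuotientGroup.mk_surjective b
          rw [MonoidHom.mul_apply, QuotientGroup.lift_mk, QuotientGroup.lift_mk,
            QuotientGroup.lift_mk]
          change ι _ = ι _ * ι _
          rw [← map_mul]
          congr 1
          apply Subtype.ext
          have h1 : ⁅(g' : L), (c : L)⁆ ∈ U := hmem g' g'.2 c c.2
          have h2 : (g : L) * ⁅(g' : L), (c : L)⁆ = ⁅(g' : L), (c : L)⁆ * g :=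
            hQU g g.2 _ h1
          have h4 : ⁅(g : L), (c : L)⁆ * ⁅(g' : L), (c : L)⁆ =
              ⁅(g' : L), (c : L)⁆ * ⁅(g : L), (c : L)⁆ :=
            hUc _ (hmem g g.2 c c.2) _ h1
          have h3 : ⁅((g * g' : Q) : L), (c : L)⁆ = (g * ⁅(g' : L), (c : L)⁆) * (g : L)⁻¹ *
              ⁅(g : L), (c : L)⁆ := by
            simp only [commutatorElement_def, Subgroup.coe_mul]; group
          change ⁅((g * g' : Q) : L), (c : L)⁆ = ⁅(g : L), (c : L)⁆ * ⁅(g' : L), (c : L)⁆
          rw [h3, h2, h4]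
          group }
    have hΦker : Φ.ker ≤ U.subgroupOf Q := by
      intro g hg
      rw [MonoidHom.mem_ker] at hg
      rw [Subgroup.mem_subgroupOf]
      apply hcent g g.2.1
      intro c hc
      have h1 : Φ g (QuotientGroup.mk ⟨c, hc⟩) = 1 := by rw [hg]; rfl
      have h2 : ι ⟨⁅(g : L), c⁆, hmem g g.2 c hc⟩ = 1 := h1
      rw [← map_one ι] at h2
      have h3 := congrArg Subtype.val (hι h2)
      simp only [OneMemClass.coe_one] at h3
      exact (commutatorElement_eq_one_iff_mul_comm.1 h3).symm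
    -- counting
    obtain ⟨hfinB, hcardB⟩ := card_hom_le B
    have h1 : Nat.card Q = Nat.card Φ.ker * Nat.card Φ.range := by
      rw [← Subgroup.card_mul_index Φ.ker, Subgroup.index_ker]
    have h2 : Nat.card Φ.ker ≤ Nat.card U := by
      refine (Subgroup.card_le_of_le hΦker).trans ?_
      rw [Nat.card_congr (Subgroup.subgroupOfEquivOfLe hUQ).toEquiv]
    have h3 : Nat.card Φ.range ≤ Nat.card B := (Subgroup.card_le_card_group _).trans hcardB
    have h4 : Nat.card C = Nat.card B * Nat.card U := by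
      rw [Subgroup.card_eq_card_quotient_mul_card_subgroup (U.subgroupOf C)]
      congr 1
      exact Nat.card_congr (Subgroup.subgroupOfEquivOfLe hUC).toEquiv
    have h5 : Nat.card Q ≤ Nat.card C := by
      rw [h1, h4, mul_comm (Nat.card B)]
      exact Nat.mul_le_mul h2 h3
    have h6 : C = Q := Subgroup.eq_of_le_of_card_ge inf_le_left h5
    exact h6.ge
  have hQP : ∀ q ∈ Q, ∀ t ∈ P, ⁅q, t⁆ ∈ U := fun q hq t ht => (hQC hq).2 t ht
  have hPQ : ∀ t ∈ P, ∀ q ∈ Q, ⁅t, q⁆ ∈ U := fun t ht q hq => by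
    have := U.inv_mem (hQP q hq t ht)
    rwa [commutatorElement_inv] at this
  have hcentQ : ∀ g ∈ P, (∀ q ∈ Q, q * g = g * q) → g ∈ U := fun g hg h =>
    hcent g hg (fun c hc => h c hc.1)
  -- a generator of `⁅Q, Q⁆`
  have hQQU : ⁅Q, Q⁆ ≤ U := by
    rw [Subgroup.commutator_le]
    exact fun a ha b hb => hQP a ha b hb.1
  obtain ⟨w, hw⟩ : ∃ w ∈ ⁅Q, Q⁆, ∀ z ∈ ⁅Q, Q⁆, ∃ k : ℤ, w ^ k = z := by
    have : IsCyclic (⁅Q, Q⁆.subgroupOf U) := inferInstance
    obtain ⟨w, hw⟩ := IsCyclic.exists_generator (α := ⁅Q, Q⁆.subgroupOf U)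
    refine ⟨w, w.2, fun z hz => ?_⟩
    obtain ⟨k, hk⟩ := hw ⟨⟨z, hQQU hz⟩, hz⟩
    refine ⟨k, ?_⟩
    have := congrArg (fun x : (⁅Q, Q⁆.subgroupOf U) => ((x : U) : L)) hk
    simpa using this
  obtain ⟨hwm, hwg⟩ := hw
  let n : ℤ := orderOf w
  have hzn : ∀ z ∈ ⁅Q, Q⁆, z ^ n = 1 := by
    intro z hz
    obtain ⟨k, rfl⟩ := hwg z hz
    rw [← zpow_mul, mul_comm, zpow_mul, zpow_natCast, pow_orderOf_eq_one, one_zpow]
  -- `q ^ n ∈ U`
  have hqn : ∀ q ∈ Q, q ^ n ∈ U := by
    intro q hq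
    apply hcentQ _ (P.zpow_mem hq.1 n)
    intro q' hq'
    -- conjugation by `q'`
    have h1 : ⁅q', q⁆ ∈ U := hQP q' hq' q hq.1
    have h2 : q' * q * q'⁻¹ = ⁅q', q⁆ * q := by rw [commutatorElement_def]; group
    have h3 : (q' * q * q'⁻¹) ^ n = ⁅q', q⁆ ^ n * q ^ n := by
      rw [h2]
      have hc : Commute ⁅q', q⁆ q := (hQU q hq _ h1).symm
      exact hc.mul_zpow n
    rw [hzn _ (Subgroup.commutator_mem_commutator hq' hq), one_mul, conj_zpow] at h3
    rw [mul_inv_eq_iff_eq_mul] at h3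
    exact h3
  -- the exponents `a g`
  have haex : ∀ g : L, ∃ a : ℤ, ∀ u ∈ U, g * u * g⁻¹ = u ^ a := by
    intro g
    obtain ⟨a, ha⟩ := MonoidHom.map_cyclic ((MulAut.conjNormal g : MulAut U).toMonoidHom)
    refine ⟨a, fun u hu => ?_⟩
    have := congrArg Subtype.val (ha ⟨u, hu⟩)
    simpa using this
  choose a ha using haex
  have hdvd : ∀ g ∈ P, n ∣ a g - 1 := by
    intro g hg
    rw [orderOf_dvd_iff_zpow_eq_one]
    -- `g` centralises `⁅Q, Q⁆`
    have hc : ⁅Q, Q⁆ ≤ Subgroup.centralizer ({g} : Set L) := by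
      rw [Subgroup.commutator_le]
      intro q hq q' hq'
      rw [Subgroup.mem_centralizer_singleton_iff]
      have h1 : ⁅g, q⁆ ∈ U := hPQ g hg q hq
      have h1' : ⁅g, q'⁆ ∈ U := hPQ g hg q' hq'
      have h2 : g * q * g⁻¹ = ⁅g, q⁆ * q := by rw [commutatorElement_def]; group
      have h2' : g * q' * g⁻¹ = ⁅g, q'⁆ * q' := by rw [commutatorElement_def]; group
      have h3 : g * ⁅q, q'⁆ * g⁻¹ = ⁅g * q * g⁻¹, g * q' * g⁻¹⁆ := by
        simp only [commutatorElement_def]; group
      have h4 : ⁅⁅g, q⁆ * q, ⁅g, q'⁆ * q'⁆ = ⁅q, q'⁆ := by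
        generalize ⁅g, q⁆ = u at h1
        generalize ⁅g, q'⁆ = u' at h1'
        have c1 : Commute u q := (hQU q hq u h1).symm
        have c2 : Commute u q' := (hQU q' hq' u h1).symm
        have c3 : Commute u' q := (hQU q hq u' h1').symm
        have c4 : Commute u' q' := (hQU q' hq' u' h1').symm
        have c5 : Commute u u' := hUc u h1 u' h1'
        rw [commutatorElement_def, commutatorElement_def]
        have e1 : u * q * (u' * q') = (q * q') * (u * u') := by
          calc u * q * (u' * q') = (u * q) * (u' * q') := rfl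
            _ = (q * u) * (q' * u') := by rw [c1.eq, c4.eq]
            _ = q * (u * q') * u' := by group
            _ = q * (q' * u) * u' := by rw [c2.eq]
            _ = _ := by group
        have e2 : u' * q' * (u * q) = (q' * q) * (u * u') := by
          calc u' * q' * (u * q) = (u' * q') * (u * q) := rfl
            _ = (q' * u') * (q * u) := by rw [c4.eq, c1.eq]
            _ = q' * (u' * q) * u := by group
            _ = q' * (q * u') * u := by rw [c3.eq]
            _ = q' * q * (u' * u) := by group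
            _ = _ := by rw [c5.eq]
        have e3 : u * q * (u' * q') * (u * q)⁻¹ * (u' * q')⁻¹ =
            (u * q * (u' * q')) * (u' * q' * (u * q))⁻¹ := by group
        rw [e3, e1, e2]
        group
      rw [h2, h2', h4] at h3
      rw [mul_inv_eq_iff_eq_mul] at h3
      exact h3.symm
    have h5 := Subgroup.mem_centralizer_singleton_iff.1 (hc hwm)
    have h6 := ha g w (hQQU hwm)
    rw [zpow_sub, zpow_one, ← h6, ← h5]
    group
  -- the key symmetric identity
  have hkey : ∀ g ∈ P, ∀ h ∈ P, ∀ q ∈ Q, ⁅g, q⁆ ^ (a h - 1) = ⁅h, q⁆ ^ (a g - 1) := by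
    have hf : ∀ g ∈ P, ∀ q ∈ Q, ⁅g, q⁆ ^ n = (q ^ n) ^ (a g - 1) := by
      intro g hg q hq
      have h1 : ⁅g, q⁆ ∈ U := hPQ g hg q hq
      have h2 : g * q * g⁻¹ = ⁅g, q⁆ * q := by rw [commutatorElement_def]; group
      have h3 : (g * q * g⁻¹) ^ n = ⁅g, q⁆ ^ n * q ^ n := by
        rw [h2]
        have hc : Commute ⁅g, q⁆ q := (hQU q hq _ h1).symm
        exact hc.mul_zpow n
      rw [conj_zpow, ha g _ (hqn q hq)] at h3
      rw [zpow_sub, zpow_one, h3]
      group
    intro g hg h hh q hq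
    obtain ⟨bg, hbg⟩ := hdvd g hg
    obtain ⟨bh, hbh⟩ := hdvd h hh
    have e1 : ⁅g, q⁆ ^ (a h - 1) = (q ^ n) ^ (n * bg * bh) := by
      rw [hbh, zpow_mul, hf g hg q hq, hbg, ← zpow_mul]
    have e2 : ⁅h, q⁆ ^ (a g - 1) = (q ^ n) ^ (n * bh * bg) := by
      rw [hbg, zpow_mul, hf h hh q hq, hbh, ← zpow_mul]
    rw [e1, e2]
    congr 1
    ring
  have hPPU : ⁅P, P⁆ ≤ U := by
    rw [Subgroup.commutator_le]
    intro g hg h hh
    -- both orders of conjugation
    have e4 : ∀ q ∈ Q, (g * h) * q * (g * h)⁻¹ = (h * g) * q * (h * g)⁻¹ := by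
      intro q hq
      have h1 : ⁅g, q⁆ ∈ U := hPQ g hg q hq
      have h2 : ⁅h, q⁆ ∈ U := hPQ h hh q hq
      have e1 : (h * g) * q * (h * g)⁻¹ = ⁅g, q⁆ ^ (a h) * (⁅h, q⁆ * q) := by
        have : (h * g) * q * (h * g)⁻¹ = (h * ⁅g, q⁆ * h⁻¹) * (h * q * h⁻¹) := by
          simp only [commutatorElement_def]; group
        rw [this, ha h _ h1]
        congr 1
        simp only [commutatorElement_def]; group
      have e2 : (g * h) * q * (g * h)⁻¹ = ⁅h, q⁆ ^ (a g) * (⁅g, q⁆ * q) := by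
        have : (g * h) * q * (g * h)⁻¹ = (g * ⁅h, q⁆ * g⁻¹) * (g * q * g⁻¹) := by
          simp only [commutatorElement_def]; group
        rw [this, ha g _ h2]
        congr 1
        simp only [commutatorElement_def]; group
      have e3 : ⁅g, q⁆ ^ (a h) * ⁅h, q⁆ = ⁅h, q⁆ ^ (a g) * ⁅g, q⁆ := by
        have k := hkey g hg h hh q hq
        rw [zpow_sub, zpow_sub, zpow_one, zpow_one] at k
        have hcm : ⁅g, q⁆ * ⁅h, q⁆ = ⁅h, q⁆ * ⁅g, q⁆ := hUc _ h1 _ h2
        calc ⁅g, q⁆ ^ (a h) * ⁅h, q⁆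
            = (⁅g, q⁆ ^ (a h) * ⁅g, q⁆⁻¹) * (⁅g, q⁆ * ⁅h, q⁆) := by group
          _ = (⁅h, q⁆ ^ (a g) * ⁅h, q⁆⁻¹) * (⁅h, q⁆ * ⁅g, q⁆) := by rw [k, hcm]
          _ = _ := by group
      rw [e1, e2, ← mul_assoc, ← mul_assoc, e3]
    apply hcentQ _ (by
      rw [commutatorElement_def]
      exact P.mul_mem (P.mul_mem (P.mul_mem hg hh) (P.inv_mem hg)) (P.inv_mem hh))
    intro q hq
    have hq' : (h * g)⁻¹ * q * (h * g) ∈ Q := by
      simpa using hQn.conj_mem q hq (h * g)⁻¹
    have e5 := e4 _ hq'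
    have l1 : (g * h) * ((h * g)⁻¹ * q * (h * g)) * (g * h)⁻¹ = ⁅g, h⁆ * q * ⁅g, h⁆⁻¹ := by
      simp only [commutatorElement_def]; group
    have l2 : (h * g) * ((h * g)⁻¹ * q * (h * g)) * (h * g)⁻¹ = q := by group
    rw [l1, l2, mul_inv_eq_iff_eq_mul] at e5
    exact e5.symm
  exact fun x hx y hy => hUc x (hPPU hx) y (hPPU hy)

end

end Pool.Agent.INW
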