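import Mathlib

/-!
# Coprime actions of finite abelian groups on finite abelian groups

Averaging, regular vectors (`exists_regular`), independence of families of subgroups (`Ind`, `orb`),
semiregularity in the primitive case (`semireg`), cyclicity of semiregular abelian groups
(`isCyclic_of_semireg`), coprimality (`not_dvd_card`).
-/

namespace Pool.Agent.INW

open scoped Pointwise

section Avg

variable {H W : Type*} [Group H] [AddCommGroup W] [DistribMulAction H W]

/-- Averaging over a finite subgroup `B` of order prime to `r`, when `r W = 0`. -/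
theorem exists_avg (B : Subgroup H) [Finite B] (r : ℕ) (hr : ∀ w : W, r • w = 0)
    (hcop : (Nat.card B).Coprime r) :
    ∃ e : W →+ W, (∀ w, (∀ b ∈ B, b • w = w) → e w = w) ∧ (∀ w, ∀ b ∈ B, b • e w = e w) ∧
      (∀ g : H, (∀ b ∈ B, b * g = g * b) → ∀ w, e (g • w) = g • e w) ∧
      (∀ S : AddSubgroup W, (∀ b ∈ B, ∀ w ∈ S, b • w ∈ S) → ∀ w ∈ S, e w ∈ S) := by
  classical
  have := Fintype.ofFinite B
  let s : ℤ := Nat.gcdA (Nat.card B) r
  let t : ℤ := Nat.gcdB (Nat.card B) r
  have hst : (1 : ℤ) = (Nat.card B : ℤ) * s + (r : ℤ) * t := by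
    have := Nat.gcd_eq_gcd_ab (Nat.card B) r
    rw [Nat.coprime_iff_gcd_eq_one.1 hcop] at this
    exact_mod_cast this
  refine ⟨{ toFun := fun w => s • ∑ b : B, (b : H) • w
            map_zero' := by simp
            map_add' := fun a b => by simp [Finset.sum_add_distrib, smul_add] }, ?_, ?_, ?_, ?_⟩
  · intro w hw
    change s • ∑ b : B, (b : H) • w = w
    have h1 : ∑ b : B, (b : H) • w = (Nat.card B : ℤ) • w := by
      rw [Finset.sum_congr rfl (fun (b : B) _ => hw b b.2)]
      simp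
    rw [h1, smul_smul]
    have h2 : s * (Nat.card B : ℤ) = 1 - t * (r : ℤ) := by rw [hst]; ring
    rw [h2, sub_smul, one_smul, mul_smul]
    have h3 : (r : ℤ) • w = 0 := by
      rw [natCast_zsmul]
      exact hr w
    rw [h3]
    simp
  · intro w b hb
    change b • (s • ∑ b : B, (b : H) • w) = s • ∑ b : B, (b : H) • w
    rw [smul_comm b s, Finset.smul_sum]
    congr 1
    refine Fintype.sum_equiv (Equiv.mulLeft (⟨b, hb⟩ : B)) _ _ ?_
    intro c
    rw [← mul_smul]
    rfl
  · intro g hg w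
    change s • ∑ b : B, (b : H) • (g • w) = g • (s • ∑ b : B, (b : H) • w)
    rw [smul_comm g s, Finset.smul_sum (r := g)]
    congr 1
    refine Finset.sum_congr rfl fun (b : B) _ => ?_
    rw [← mul_smul, ← mul_smul, hg b b.2]
  · intro S hS w hw
    change s • ∑ b : B, (b : H) • w ∈ S
    exact S.zsmul_mem (S.sum_mem fun (b : B) _ => hS b b.2 w hw) s

/-- Existence of a regular vector for a finite abelian group acting coprimely. -/
theorem exists_regular [Finite H] [Finite W] (U : AddSubgroup W) (hU : U ≠ ⊥) (Q : Subgroup H)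
    (hQU : ∀ q ∈ Q, ∀ u ∈ U, q • u ∈ U) (hQ : ∀ a ∈ Q, ∀ b ∈ Q, a * b = b * a)
    (r : ℕ) (hr : ∀ w : W, r • w = 0) (hcop : (Nat.card Q).Coprime r) :
    ∃ w ∈ U, w ≠ 0 ∧ ∀ q ∈ Q, q • w = w → ∀ u ∈ U, q • u = u := by
  classical
  let R : W → Subgroup H := fun w => Q ⊓ MulAction.stabilizer H w
  have hmemR : ∀ w q, q ∈ R w ↔ q ∈ Q ∧ q • w = w := fun w q => by
    simp only [R, Subgroup.mem_inf, MulAction.mem_stabilizer_iff]
  let Pr : ℕ → Prop := fun n => ∃ w ∈ U, w ≠ 0 ∧ Nat.card (R w) = n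
  have hex : ∃ n, Pr n := by
    obtain ⟨w, hw, hw0⟩ := (AddSubgroup.ne_bot_iff_exists_ne_zero).1 hU |>.elim
      fun a ha => (⟨a.1, a.2, fun h => ha (Subtype.ext h)⟩ : ∃ w ∈ U, w ≠ 0)
    exact ⟨_, w, hw, hw0, rfl⟩
  obtain ⟨w, hw, hw0, hcard⟩ := Nat.find_spec hex
  have hmin : ∀ v ∈ U, v ≠ 0 → Nat.find hex ≤ Nat.card (R v) :=
    fun v hv hv0 => Nat.find_min' hex ⟨v, hv, hv0, rfl⟩
  refine ⟨w, hw, hw0, ?_⟩
  by_contra hcon
  push Not at hcon
  obtain ⟨q, hq, hqw, u, hu, hqu⟩ := hcon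
  have hqR : q ∈ R w := (hmemR _ _).2 ⟨hq, hqw⟩
  have hcop' : (Nat.card (R w)).Coprime r :=
    Nat.Coprime.coprime_dvd_left (Subgroup.card_dvd_of_le inf_le_left) hcop
  obtain ⟨e, e1, e2, e3, e4⟩ := exists_avg (W := W) (R w) r hr hcop'
  have heU : e u ∈ U := e4 U (fun b hb v hv => hQU b ((hmemR _ _).1 hb).1 v hv) u hu
  have hew : e w = w := e1 w fun b hb => ((hmemR _ _).1 hb).2
  have heeu : e (e u) = e u := e1 _ (e2 u)
  have hu' : e (u - e u) = 0 := by rw [map_sub, heeu, sub_self]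
  have hwu : e (w + (u - e u)) = w := by rw [map_add, hew, hu', add_zero]
  have hne : w + (u - e u) ≠ 0 := by
    intro h
    rw [h, map_zero] at hwu
    exact hw0 hwu.symm
  have hmem : w + (u - e u) ∈ U := U.add_mem hw (U.sub_mem hu heU)
  have hlt : R (w + (u - e u)) < R w := by
    have hle : R (w + (u - e u)) ≤ R w := by
      intro g hg
      rw [hmemR] at hg ⊢
      refine ⟨hg.1, ?_⟩
      have h1 := e3 g (fun b hb => hQ b ((hmemR _ _).1 hb).1 g hg.1) (w + (u - e u))
      rw [hg.2, hwu] at h1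
      exact h1.symm
    refine lt_of_le_of_ne hle ?_
    intro heq
    rw [← heq, hmemR] at hqR
    have h1 := hqR.2
    rw [smul_add, smul_sub, hqw, e2 u q ((hmemR _ _).2 ⟨hq, hqw⟩)] at h1
    have h2 : q • u - e u = u - e u := add_left_cancel h1
    exact hqu (sub_left_injective h2)
  have h1 : Nat.card (R (w + (u - e u))) < Nat.card (R w) := by
    have h2 : Nat.card (R (w + (u - e u))) ≤ Nat.card (R w) :=
      Nat.le_of_dvd Nat.card_pos (Subgroup.card_dvd_of_le hlt.le)
    refine lt_of_le_of_ne h2 fun h3 => hlt.ne ?_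
    exact Subgroup.eq_of_le_of_card_ge hlt.le h3.ge
  have h2 := hmin _ hmem hne
  omega

end Avg

section Indep

variable {M : Type*} [AddCommGroup M]

/-- Independence of a finite set of subgroups of an abelian group. -/
def Ind (s : Finset (AddSubgroup M)) : Prop :=
  ∀ f : AddSubgroup M → M, (∀ T ∈ s, f T ∈ T) → ∑ T ∈ s, f T = 0 → ∀ T ∈ s, f T = 0

/-- The orbit of a subgroup, as a finite set. -/
noncomputable def orb [Finite M] (H : Type*) [Group H] [DistribMulAction H M]
    (S : AddSubgroup M) : Finset (AddSubgroup M) :=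
  (Set.toFinite (MulAction.orbit H S)).toFinset

variable [Finite M] {H : Type*} [Group H] [DistribMulAction H M]

theorem mem_orb {S T : AddSubgroup M} : T ∈ orb H S ↔ ∃ h : H, h • S = T := by
  simp [orb, MulAction.mem_orbit_iff]

theorem self_mem_orb (S : AddSubgroup M) : S ∈ orb H S := mem_orb.2 ⟨1, one_smul _ _⟩

theorem smul_mem_orb {S T : AddSubgroup M} (h : H) (hT : T ∈ orb H S) : h • T ∈ orb H S := by
  obtain ⟨g, rfl⟩ := mem_orb.1 hT
  exact mem_orb.2 ⟨h * g, mul_smul _ _ _⟩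

omit [Finite M] in
theorem Ind.mono {s t : Finset (AddSubgroup M)} (hs : Ind s) (hts : t ⊆ s) : Ind t := by
  classical
  intro f hf h0 T hT
  have h1 := hs (fun U => if U ∈ t then f U else 0) (fun U _ => by
    split_ifs with h
    · exact hf U h
    · exact U.zero_mem) (by
    rw [← Finset.sum_subset hts]
    · rw [Finset.sum_congr rfl (fun U hU => if_pos hU)]
      exact h0
    · intro U _ hU
      exact if_neg hU) T (hts hT)
  rwa [if_pos hT] at h1

omit [Finite M] in
theorem Ind.eq_of_mem {s : Finset (AddSubgroup M)} (hs : Ind s) {U V : AddSubgroup M}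
    (hU : U ∈ s) (hV : V ∈ s) {m : M} (hm : m ≠ 0) (hmU : m ∈ U) (hmV : m ∈ V) : U = V := by
  classical
  by_contra hne
  have hsub : ({U, V} : Finset (AddSubgroup M)) ⊆ s := by
    intro T hT
    rcases Finset.mem_insert.1 hT with rfl | h
    · exact hU
    · rw [Finset.mem_singleton.1 h]
      exact hV
  have h1 := (hs.mono hsub) (fun T => if T = U then m else -m) (by
    intro T hT
    rcases Finset.mem_insert.1 hT with rfl | h
    · simpa using hmU
    · rw [Finset.mem_singleton.1 h, if_neg (Ne.symm hne)]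
      exact V.neg_mem hmV) (by
    rw [Finset.sum_pair hne, if_pos rfl, if_neg (Ne.symm hne), add_neg_cancel]) U
      (Finset.mem_insert_self _ _)
  rw [if_pos rfl] at h1
  exact hm h1

/-- Blocks of blocks are blocks. -/
theorem ind_trans {W : AddSubgroup M} (hind : Ind (orb H W))
    {L : Type*} [Group L] [DistribMulAction L W]
    (hL : ∀ h : H, h • W = W → ∃ l : L, ∀ w : W, ((l • w : W) : M) = h • (w : M))
    (hL' : ∀ l : L, ∃ h : H, h • W = W ∧ ∀ w : W, ((l • w : W) : M) = h • (w : M))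
    (S : AddSubgroup W) (hS : S ≠ ⊥) (hi : Ind (orb L S)) :
    Ind (orb H (S.map W.subtype)) := by
  classical
  set S1 := S.map W.subtype with hS1
  have hmem1 : ∀ w : W, (w : M) ∈ S1 ↔ w ∈ S := by
    intro w
    rw [hS1, AddSubgroup.mem_map]
    constructor
    · rintro ⟨v, hv, h⟩
      rwa [← Subtype.ext h]
    · intro h
      exact ⟨w, h, rfl⟩
  have hS1W : S1 ≤ W := by
    rintro _ ⟨v, _, rfl⟩
    exact v.2
  obtain ⟨s0, hs0S, hs0⟩ : ∃ s0 : M, s0 ∈ S1 ∧ s0 ≠ 0 := by
    obtain ⟨a, ha⟩ := (AddSubgroup.ne_bot_iff_exists_ne_zero).1 hS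
    refine ⟨((a : W) : M), (hmem1 _).2 a.2, fun h => ha ?_⟩
    apply Subtype.ext
    apply Subtype.ext
    exact h
  intro f hf hsum T0 hT0
  -- choice of a transporter
  have hch : ∀ T, ∃ h : H, T ∈ orb H S1 → h • S1 = T := by
    intro T
    by_cases hT : T ∈ orb H S1
    · obtain ⟨h, hh⟩ := mem_orb.1 hT
      exact ⟨h, fun _ => hh⟩
    · exact ⟨1, fun h => absurd h hT⟩
  choose c hc using hch
  have hcW : ∀ T ∈ orb H S1, c T • W ∈ orb H W := fun T _ => mem_orb.2 ⟨c T, rfl⟩
  have hle : ∀ T ∈ orb H S1, T ≤ c T • W := by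
    intro T hT
    conv_lhs => rw [← hc T hT]
    exact AddSubgroup.pointwise_smul_le_pointwise_smul_iff.2 hS1W
  have huniq : ∀ (T : AddSubgroup M) (h : H), T ∈ orb H S1 → h • S1 = T → c T • W = h • W := by
    intro T h hT hh
    apply hind.eq_of_mem (hcW T hT) (mem_orb.2 ⟨h, rfl⟩) (m := h • s0)
    · exact fun h' => hs0 ((smul_eq_zero_iff_eq h).1 h')
    · apply hle T hT
      rw [← hh]
      exact AddSubgroup.smul_mem_pointwise_smul _ _ _ hs0S
    · exact AddSubgroup.smul_mem_pointwise_smul _ _ _ (hS1W hs0S)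
  have hg := hind (fun V => ∑ T ∈ (orb H S1).filter (fun T => c T • W = V), f T) (by
    intro V _
    apply V.sum_mem
    intro T hT
    obtain ⟨h1, h2⟩ := Finset.mem_filter.1 hT
    rw [← h2]
    exact hle T h1 (hf T h1)) (by
    rw [Finset.sum_fiberwise_of_maps_to hcW]
    exact hsum)
  set c0 := c T0 with hc0
  have hV := hg (c0 • W) (hcW T0 hT0)
  -- transport of subgroups
  have htr : ∀ (l : L) (h : H), (∀ w : W, ((l • w : W) : M) = h • (w : M)) →
      (l • S).map W.subtype = h • S1 := by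
    intro l h hlh
    ext m
    rw [AddSubgroup.mem_map, AddSubgroup.mem_smul_pointwise_iff_exists]
    constructor
    · rintro ⟨w, hw, rfl⟩
      obtain ⟨s, hs, rfl⟩ := (AddSubgroup.mem_smul_pointwise_iff_exists _ _ _).1 hw
      exact ⟨s, (hmem1 s).2 hs, (hlh s).symm⟩
    · rintro ⟨s, hs, rfl⟩
      obtain ⟨s', hs', rfl⟩ := hs
      exact ⟨l • s', AddSubgroup.smul_mem_pointwise_smul _ _ _ hs', hlh s'⟩
  let f' : AddSubgroup W → W := fun T' =>
    if h : c0⁻¹ • f (c0 • T'.map W.subtype) ∈ W then ⟨_, h⟩ else 0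
  have hf'0 : ∀ T' ∈ orb L S, c0⁻¹ • f (c0 • T'.map W.subtype) ∈ T'.map W.subtype := by
    intro T' hT'
    obtain ⟨l, rfl⟩ := mem_orb.1 hT'
    obtain ⟨h, _, hlh⟩ := hL' l
    rw [← AddSubgroup.mem_pointwise_smul_iff_inv_smul_mem]
    apply hf
    rw [htr l h hlh]
    exact mem_orb.2 ⟨c0 * h, mul_smul _ _ _⟩
  have hf'W : ∀ T' : AddSubgroup W, T'.map W.subtype ≤ W := by
    rintro T' _ ⟨v, _, rfl⟩
    exact v.2
  have hf' : ∀ T' ∈ orb L S, ((f' T' : W) : M) = c0⁻¹ • f (c0 • T'.map W.subtype) := by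
    intro T' hT'
    have h1 := hf'W T' (hf'0 T' hT')
    simp only [f', dif_pos h1]
  have hres := hi f' (by
    intro T' hT'
    have h1 := hf'0 T' hT'
    rw [← hf' T' hT'] at h1
    obtain ⟨v, hv, hv2⟩ := h1
    rwa [← Subtype.ext hv2]) (by
    apply Subtype.ext
    rw [AddSubgroup.coe_zero, AddSubgroup.val_finsetSum, Finset.sum_congr rfl hf',
      ← Finset.smul_sum]
    rw [smul_eq_zero_iff_eq]
    rw [← hV]
    refine Finset.sum_bij (fun T' _ => c0 • T'.map W.subtype) ?_ ?_ ?_ ?_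
    · intro T' hT'
      obtain ⟨l, rfl⟩ := mem_orb.1 hT'
      obtain ⟨h, hhW, hlh⟩ := hL' l
      rw [htr l h hlh]
      have h1 : c0 • h • S1 ∈ orb H S1 := mem_orb.2 ⟨c0 * h, mul_smul _ _ _⟩
      refine Finset.mem_filter.2 ⟨h1, ?_⟩
      rw [huniq _ (c0 * h) h1 (mul_smul _ _ _), mul_smul, hhW]
    · intro A _ B _ hAB
      have h1 : A.map W.subtype = B.map W.subtype := smul_left_cancel c0 hAB
      exact AddSubgroup.map_injective W.subtype_injective h1
    · intro T hT
      obtain ⟨h1, h2⟩ := Finset.mem_filter.1 hT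
      have h3 : (c0⁻¹ * c T) • W = W := by rw [mul_smul, h2, inv_smul_smul]
      obtain ⟨l, hl⟩ := hL _ h3
      refine ⟨l • S, mem_orb.2 ⟨l, rfl⟩, ?_⟩
      rw [htr l _ hl, mul_smul, smul_inv_smul, hc T h1]
    · intro T' _
      rfl) S (self_mem_orb S)
  have h1 := hf' S (self_mem_orb S)
  rw [hres, ← hS1, hc T0 hT0, AddSubgroup.coe_zero] at h1
  exact (smul_eq_zero_iff_eq _).1 h1.symm

end Indep

section Semireg

/-- In the primitive case, a normal abelian subgroup of order prime to `r` acts semiregularly. -/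
theorem semireg {L W : Type*} [Group L] [Finite L] [AddCommGroup W] [Finite W]
    [DistribMulAction L W] (r : ℕ) (hr : ∀ w : W, r • w = 0)
    (prim : ∀ S : AddSubgroup W, S ≠ ⊥ → Ind (orb L S) → S = ⊤)
    (A : Subgroup L) [hAn : A.Normal] (hA : ∀ a ∈ A, ∀ b ∈ A, a * b = b * a)
    (hcop : (Nat.card A).Coprime r) :
    ∀ a ∈ A, ∀ w : W, w ≠ 0 → a • w = w → ∀ u : W, a • u = u := by
  classical
  intro a ha w hw haw
  let R : W → Subgroup L := fun w => A ⊓ MulAction.stabilizer L w
  have hmemR : ∀ w q, q ∈ R w ↔ q ∈ A ∧ q • w = w := fun w q => by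
    simp only [R, Subgroup.mem_inf, MulAction.mem_stabilizer_iff]
  -- a vector with largest stabiliser
  obtain ⟨w1, hw1, hmax⟩ : ∃ w1 : W, w1 ≠ 0 ∧ ∀ v : W, v ≠ 0 → Nat.card (R v) ≤ Nat.card (R w1) := by
    have hne : {v : W | v ≠ 0}.Nonempty := ⟨w, hw⟩
    obtain ⟨w1, h1, h2⟩ := Set.exists_max_image {v : W | v ≠ 0} (fun v => Nat.card (R v))
      (Set.toFinite _) hne
    exact ⟨w1, h1, fun v hv => h2 v hv⟩
  set B := R w1 with hB
  let S : AddSubgroup W :=
    { carrier := {v | ∀ b ∈ B, b • v = v}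
      zero_mem' := fun b _ => smul_zero b
      add_mem' := fun {x y} hx hy b hb => by rw [smul_add, hx b hb, hy b hb]
      neg_mem' := fun {x} hx b hb => by rw [smul_neg, hx b hb] }
  have hmemS : ∀ v, v ∈ S ↔ ∀ b ∈ B, b • v = v := fun v => Iff.rfl
  have hSne : S ≠ ⊥ := by
    intro h
    have h1 : w1 ∈ S := (hmemS _).2 fun b hb => ((hmemR _ _).1 hb).2
    rw [h, AddSubgroup.mem_bot] at h1
    exact hw1 h1
  -- conjugates
  let Bc : L → Subgroup L := fun l => B.map (MulAut.conj l).toMonoidHom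
  have hmemBc : ∀ l q, q ∈ Bc l ↔ l⁻¹ * q * l ∈ B := by
    intro l q
    simp only [Bc, Subgroup.mem_map]
    constructor
    · rintro ⟨b, hb, rfl⟩
      have : l⁻¹ * (MulAut.conj l).toMonoidHom b * l = b := by
        change l⁻¹ * (l * b * l⁻¹) * l = b
        group
      rwa [this]
    · intro h
      refine ⟨_, h, ?_⟩
      simp [MulAut.conj_apply, mul_assoc]
  have hBcA : ∀ l, Bc l ≤ A := by
    intro l q hq
    have h1 := ((hmemR _ _).1 ((hmemBc l q).1 hq)).1
    have h2 := hAn.conj_mem _ h1 l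
    have h3 : l * (l⁻¹ * q * l) * l⁻¹ = q := by group
    rwa [h3] at h2
  have hcard : ∀ l, Nat.card (Bc l) = Nat.card B := fun l =>
    Nat.card_congr (Subgroup.equivMapOfInjective B _ (MulAut.conj l).injective).symm.toEquiv
  have hmemlS : ∀ (l : L) v, v ∈ l • S ↔ ∀ b ∈ Bc l, b • v = v := by
    intro l v
    rw [AddSubgroup.mem_pointwise_smul_iff_inv_smul_mem, hmemS]
    constructor
    · intro h b hb
      have h1 := h _ ((hmemBc l b).1 hb)
      rw [← mul_smul] at h1
      have h2 : l⁻¹ * b * l * l⁻¹ = l⁻¹ * b := by group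
      rw [h2, mul_smul] at h1
      exact smul_left_cancel _ h1
    · intro h b hb
      have h1 := h (l * b * l⁻¹) ((hmemBc l _).2 (by
        have : l⁻¹ * (l * b * l⁻¹) * l = b := by group
        rwa [this]))
      have h3 := congrArg (fun v => l⁻¹ • v) h1
      simp only [← mul_smul] at h3
      have h4 : l⁻¹ * (l * b * l⁻¹) = b * l⁻¹ := by group
      rw [h4, mul_smul] at h3
      exact h3
  -- the translates of `S` are independent
  have hind : Ind (orb L S) := by
    intro f hf hsum T0 hT0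
    obtain ⟨l0, hl0⟩ := mem_orb.1 hT0
    have hcop' : (Nat.card (Bc l0)).Coprime r :=
      Nat.Coprime.coprime_dvd_left (Subgroup.card_dvd_of_le (hBcA l0)) hcop
    obtain ⟨e, e1, e2, e3, _⟩ := exists_avg (W := W) (Bc l0) r hr hcop'
    have h0 : ∀ T ∈ orb L S, T ≠ T0 → e (f T) = 0 := by
      intro T hT hne
      by_contra hcon
      obtain ⟨l, hl⟩ := mem_orb.1 hT
      have hfT := hf T hT
      rw [← hl, hmemlS] at hfT
      have h1 : ∀ b ∈ Bc l, b • e (f T) = e (f T) := by
        intro b hb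
        rw [← hl, ← e3 b (fun c hc => hA c (hBcA _ hc) b (hBcA _ hb)), hfT b hb]
      have h2 : Bc l0 ≤ R (e (f T)) := fun b hb => (hmemR _ _).2 ⟨hBcA _ hb, e2 _ b hb⟩
      have h3 : Bc l ≤ R (e (f T)) := fun b hb => (hmemR _ _).2 ⟨hBcA _ hb, h1 b hb⟩
      have h4 : Nat.card (R (e (f T))) ≤ Nat.card B := hmax _ hcon
      have h5 : Bc l0 = R (e (f T)) := Subgroup.eq_of_le_of_card_ge h2 (by rw [hcard]; exact h4)
      have h6 : Bc l = R (e (f T)) := Subgroup.eq_of_le_of_card_ge h3 (by rw [hcard]; exact h4)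
      apply hne
      rw [← hl, ← hl0]
      ext v
      rw [hmemlS, hmemlS, h5, h6]
    have h1 : e (∑ T ∈ orb L S, f T) = f T0 := by
      rw [map_sum, Finset.sum_eq_single_of_mem T0 hT0 h0]
      apply e1
      have := hf T0 hT0
      rwa [← hl0, hmemlS, hl0] at this
    rw [← h1, hsum, map_zero]
  have htop := prim S hSne hind
  have hBtriv : ∀ b ∈ B, ∀ u : W, b • u = u := by
    intro b hb u
    have : u ∈ S := by rw [htop]; trivial
    exact (hmemS u).1 this b hb
  have h1 : B = R w := by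
    apply Subgroup.eq_of_le_of_card_ge
    · intro b hb
      exact (hmemR _ _).2 ⟨((hmemR _ _).1 hb).1, hBtriv b hb w⟩
    · exact hmax w hw
  have h2 : a ∈ B := by
    rw [h1]
    exact (hmemR _ _).2 ⟨ha, haw⟩
  exact hBtriv a h2

/-- A finite commutative group acting semiregularly on a nonzero finite abelian group is
cyclic. -/
theorem isCyclic_of_semireg {A W : Type*} [Group A] [Finite A] [AddCommGroup W] [Finite W]
    [DistribMulAction A W] (hcomm : ∀ a b : A, a * b = b * a) (hW : ∃ w : W, w ≠ 0)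
    (hsr : ∀ a : A, ∀ w : W, w ≠ 0 → a • w = w → a = 1) : IsCyclic A := by
  classical
  let _ : CommGroup A := { (inferInstance : Group A) with mul_comm := hcomm }
  let ρ : Representation ℤ A W := Representation.ofDistribMulAction ℤ A W
  have hfin : Finite ρ.asModule := inferInstanceAs (Finite W)
  have hnt : Nontrivial ρ.asModule := by
    obtain ⟨w, hw⟩ := hW
    exact ⟨⟨w, 0, hw⟩⟩
  let R := MonoidAlgebra ℤ A
  have hfs : Finite (Submodule R ρ.asModule) :=
    Finite.of_injective (fun S : Submodule R ρ.asModule => (S : Set ρ.asModule))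
      SetLike.coe_injective
  obtain ⟨S, hS, _⟩ := (IsAtomic.eq_bot_or_exists_atom_le (⊤ : Submodule R ρ.asModule)).resolve_left
    top_ne_bot
  have hsimple : IsSimpleModule R S := isSimpleModule_iff_isAtom.2 hS
  obtain ⟨w, hw⟩ := @exists_ne S (IsSimpleModule.nontrivial R S) 0
  have hmax := IsSimpleModule.ker_toSpanSingleton_isMaximal R hw
  set I : Ideal R := LinearMap.ker (LinearMap.toSpanSingleton R S w) with hI
  have hdom : IsDomain (R ⧸ I) := Ideal.Quotient.isDomain I
  let f : A →* R ⧸ I := ((Ideal.Quotient.mk I : R →+* R ⧸ I) : R →* R ⧸ I).comp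
    (MonoidAlgebra.of ℤ A)
  refine isCyclic_of_injective_ringHom f ?_
  rw [injective_iff_map_eq_one]
  intro a ha
  have h1 : (MonoidAlgebra.of ℤ A a - 1 : R) ∈ I := by
    rw [← Ideal.Quotient.eq_zero_iff_mem, map_sub, map_one, sub_eq_zero]
    exact ha
  rw [hI, LinearMap.mem_ker, LinearMap.toSpanSingleton_apply, sub_smul, one_smul,
    sub_eq_zero] at h1
  have h2 := congrArg (Subtype.val) h1
  have h3 : MonoidAlgebra.of ℤ A a • (w : ρ.asModule) = (w : ρ.asModule) := h2
  rw [MonoidAlgebra.of_apply, Representation.single_smul, one_smul] at h3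
  refine hsr a (w : ρ.asModule) (fun h => hw (Subtype.ext h)) h3

/-- A nilpotent normal subgroup of a group acting faithfully and irreducibly on an elementary
abelian `r`-group has order prime to `r`. -/
theorem not_dvd_card {H M : Type*} [Group H] [Finite H] [AddCommGroup M] [Finite M]
    [DistribMulAction H M] [FaithfulSMul H M] (r : ℕ) [hrp : Fact r.Prime]
    (hr : ∀ m : M, r • m = 0) (hM : ∃ m : M, m ≠ 0)
    (irr : ∀ S : AddSubgroup M, (∀ h : H, ∀ m ∈ S, h • m ∈ S) → S = ⊥ ∨ S = ⊤)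
    (N : Subgroup H) [hNn : N.Normal] [hN : Group.IsNilpotent N] : ¬ r ∣ Nat.card N := by
  classical
  intro hdvd
  obtain ⟨P⟩ : Nonempty (Sylow r N) := inferInstance
  have hPn : (P : Subgroup N).Normal := inferInstance
  have hPc : (P : Subgroup N).Characteristic := Sylow.characteristic_of_normal P hPn
  set Q : Subgroup H := (P : Subgroup N).map N.subtype with hQ
  have hQn : Q.Normal := inferInstance
  have hQp : IsPGroup r Q := P.isPGroup'.map N.subtype
  have hrM : r ∣ Nat.card M := by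
    obtain ⟨m, hm⟩ := hM
    have h1 : addOrderOf m = r := addOrderOf_eq_prime (hr m) hm
    rw [← h1]
    exact addOrderOf_dvd_natCard m
  obtain ⟨b, hb, hb0⟩ := hQp.exists_fixed_point_of_prime_dvd_card_of_fixed_point M hrM
    (a := (0 : M)) (fun q => smul_zero q)
  let S : AddSubgroup M :=
    { carrier := {v | ∀ b ∈ Q, b • v = v}
      zero_mem' := fun b _ => smul_zero b
      add_mem' := fun {x y} hx hy b hb => by rw [smul_add, hx b hb, hy b hb]
      neg_mem' := fun {x} hx b hb => by rw [smul_neg, hx b hb] }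
  have hmemS : ∀ v, v ∈ S ↔ ∀ b ∈ Q, b • v = v := fun v => Iff.rfl
  have hS := irr S (by
    intro h m hm
    rw [hmemS] at hm ⊢
    intro b hb
    have h1 := hm (h⁻¹ * b * h) (by
      have := hQn.conj_mem b hb h⁻¹
      rwa [inv_inv] at this)
    have h2 : b * h = h * (h⁻¹ * b * h) := by group
    rw [← mul_smul, h2, mul_smul, h1])
  have hST : S = ⊤ := by
    rcases hS with h | h
    · exfalso
      have h1 : b ∈ S := (hmemS _).2 fun q hq => hb ⟨q, hq⟩
      rw [h, AddSubgroup.mem_bot] at h1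
      exact hb0 h1.symm
    · exact h
  have hQbot : Q = ⊥ := by
    rw [Subgroup.eq_bot_iff_forall]
    intro q hq
    apply eq_of_smul_eq_smul (α := M)
    intro m
    have : m ∈ S := by rw [hST]; trivial
    rw [(hmemS m).1 this q hq, one_smul]
  have hPbot : (P : Subgroup N) = ⊥ := by
    rw [hQ] at hQbot
    exact (Subgroup.map_eq_bot_iff_of_injective _ N.subtype_injective).1 hQbot
  have h1 := P.dvd_card_of_dvd_card hdvd
  rw [hPbot] at h1
  have h2 : Nat.card (⊥ : Subgroup N) = 1 := Subgroup.card_bot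
  rw [h2] at h1
  exact hrp.out.one_lt.ne' (Nat.dvd_one.1 h1)

end Semireg

end Pool.Agent.INW
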