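import Mathlib
import Pool.Agent.INW.Lin
import Pool.Agent.INW.LemS

/-!
# The action of a nilpotent normal subgroup on a minimal block
-/

namespace Pool.Agent.INW

open scoped Pointwise commutatorElement

/-- Let `U` be a block of smallest order and `N` a nilpotent normal subgroup of order prime to `r`
stabilising `U`. Then the group induced by `⁅N, N⁆` on `U` has a faithful linear character, and
it acts semiregularly on `U`. -/
theorem block_char {H M : Type*} [Group H] [Finite H] [AddCommGroup M] [Finite M]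
    [DistribMulAction H M] (r : ℕ) (hr : ∀ m : M, r • m = 0)
    (N : Subgroup H) [hNn : N.Normal] [hNnil : Group.IsNilpotent N]
    (hcop : (Nat.card N).Coprime r) (U : AddSubgroup M) (hU : U ≠ ⊥) (hind : Ind (orb H U))
    (hmin : ∀ U' : AddSubgroup M, U' ≠ ⊥ → Ind (orb H U') → Nat.card U ≤ Nat.card U')
    (hN : ∀ n ∈ N, n • U = U) :
    ∃ μ : (⁅N, N⁆ : Subgroup H) →* ℂˣ,
      (∀ d, μ d = 1 ↔ ∀ u ∈ U, (d : H) • u = u) ∧
      (∀ d ∈ ⁅N, N⁆, ∀ u ∈ U, u ≠ 0 → d • u = u → ∀ u' ∈ U, d • u' = u') := by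
  classical
  let St : Subgroup H := MulAction.stabilizer H U
  have hSt : ∀ s, s ∈ St ↔ s • U = U := fun s => MulAction.mem_stabilizer_iff
  have hStU : ∀ s ∈ St, ∀ u ∈ U, s • u ∈ U := by
    intro s hs u hu
    have h1 := AddSubgroup.smul_mem_pointwise_smul u s U hu
    rwa [(hSt s).1 hs] at h1
  let act : DistribMulAction St U :=
    { smul := fun s u => ⟨(s : H) • (u : M), hStU s s.2 u u.2⟩
      one_smul := fun u => Subtype.ext (one_smul _ _)
      mul_smul := fun a b u => Subtype.ext (mul_smul _ _ _)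
      smul_zero := fun a => Subtype.ext (smul_zero _)
      smul_add := fun a u v => Subtype.ext (smul_add _ _ _) }
  have hact : ∀ (s : St) (u : U), ((s • u : U) : M) = (s : H) • (u : M) := fun s u => rfl
  let φ : St →* (AddMonoid.End U)ˣ := (DistribMulAction.toAddMonoidEnd St U).toHomUnits
  have hφ : ∀ (s : St) (u : U), ((φ s • u : U) : M) = (s : H) • (u : M) := fun s u => rfl
  have hNSt : N ≤ St := fun n hn => (hSt n).2 (hN n hn)
  let L : Subgroup (AddMonoid.End U)ˣ := φ.range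
  have hLfin : Finite L := Finite.of_surjective φ.rangeRestrict φ.rangeRestrict_surjective
  have hLfaith : ∀ l : L, (∀ u : U, l • u = u) → l = 1 := by
    intro l hl
    apply Subtype.ext
    apply Units.ext
    apply AddMonoidHom.ext
    intro u
    exact hl u
  let ψ : N →* L := φ.rangeRestrict.comp (Subgroup.inclusion hNSt)
  have hψ : ∀ (n : N) (u : U), ((ψ n • u : U) : M) = (n : H) • (u : M) := fun n u => rfl
  have hL1 : ∀ l : L, ∃ h : H, h • U = U ∧ ∀ w : U, ((l • w : U) : M) = h • (w : M) := by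
    rintro ⟨_, s, rfl⟩
    exact ⟨s, (hSt s).1 s.2, fun w => rfl⟩
  have hL2 : ∀ h : H, h • U = U → ∃ l : L, ∀ w : U, ((l • w : U) : M) = h • (w : M) := by
    intro h hh
    exact ⟨⟨φ ⟨h, (hSt h).2 hh⟩, ⟨_, rfl⟩⟩, fun w => rfl⟩
  -- `U` is primitive for `L`
  have prim : ∀ S : AddSubgroup U, S ≠ ⊥ → Ind (orb L S) → S = ⊤ := by
    intro S hS hi
    have h1 := ind_trans hind hL2 hL1 S hS hi
    have h2 : S.map U.subtype ≠ ⊥ := by
      intro h
      exact hS ((AddSubgroup.map_eq_bot_iff_of_injective _ U.subtype_injective).1 h)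
    have h3 := hmin _ h2 h1
    have h4 : Nat.card (S.map U.subtype) = Nat.card S :=
      Nat.card_congr (AddSubgroup.equivMapOfInjective S _ U.subtype_injective).symm.toEquiv
    rw [h4] at h3
    apply AddSubgroup.eq_top_of_card_eq
    refine le_antisymm ?_ h3
    exact Nat.card_le_card_of_injective _ S.subtype_injective
  -- the image of `N`
  let P : Subgroup L := ψ.range
  have hPn : P.Normal := by
    refine ⟨?_⟩
    rintro _ ⟨n, rfl⟩ ⟨_, s, rfl⟩
    have hm : (s : H) * n * (s : H)⁻¹ ∈ N := hNn.conj_mem n n.2 s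
    refine ⟨⟨(s : H) * n * (s : H)⁻¹, hm⟩, ?_⟩
    apply Subtype.ext
    change φ (Subgroup.inclusion hNSt ⟨(s : H) * n * (s : H)⁻¹, hm⟩) =
      φ s * φ (Subgroup.inclusion hNSt n) * (φ s)⁻¹
    rw [← map_inv, ← map_mul, ← map_mul]
    rfl
  have hPnil : Group.IsNilpotent P :=
    Group.nilpotent_of_surjective ψ.rangeRestrict ψ.rangeRestrict_surjective
  have hPcard : Nat.card P ∣ Nat.card N := Subgroup.card_range_dvd ψ
  have hrU : ∀ u : U, r • u = 0 := fun u => Subtype.ext (hr u)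
  have hsemi : ∀ A : Subgroup L, A ≤ P → A.Normal → (∀ a ∈ A, ∀ b ∈ A, a * b = b * a) →
      ∀ a ∈ A, ∀ w : U, w ≠ 0 → a • w = w → ∀ u : U, a • u = u := by
    intro A hAP hAn hA
    have hcop' : (Nat.card A).Coprime r :=
      Nat.Coprime.coprime_dvd_left ((Subgroup.card_dvd_of_le hAP).trans hPcard) hcop
    exact semireg (W := U) r hrU prim A hA hcop'
  have hUne : ∃ u : U, u ≠ 0 := by
    obtain ⟨a, ha⟩ := (AddSubgroup.ne_bot_iff_exists_ne_zero).1 hU
    exact ⟨a, ha⟩
  have hcyc : ∀ A : Subgroup L, A ≤ P → A.Normal → (∀ a ∈ A, ∀ b ∈ A, a * b = b * a) →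
      IsCyclic A := by
    intro A hAP hAn hA
    refine isCyclic_of_semireg (W := U) (fun a b => Subtype.ext (hA a a.2 b b.2)) hUne ?_
    intro a w hw haw
    have h1 := hsemi A hAP hAn hA a a.2 w hw haw
    exact Subtype.ext (hLfaith a h1)
  have hDc := lemS P hcyc
  have hDP : ⁅P, P⁆ ≤ P := Subgroup.commutator_le_left P P
  have hDn : (⁅P, P⁆ : Subgroup L).Normal := Subgroup.commutator_normal P P
  have hDs := hsemi ⁅P, P⁆ hDP hDn hDc
  have hDcyc := hcyc ⁅P, P⁆ hDP hDn hDc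
  obtain ⟨f, hf⟩ := exists_injective_hom (⁅P, P⁆ : Subgroup L)
  have hNN : (⁅N, N⁆ : Subgroup H) ≤ N := Subgroup.commutator_le_left N N
  have hmem : ∀ d : (⁅N, N⁆ : Subgroup H), ψ (Subgroup.inclusion hNN d) ∈ ⁅P, P⁆ := by
    have h1 : (⁅N, N⁆ : Subgroup H) ≤ (Subgroup.comap ψ ⁅P, P⁆).map N.subtype := by
      rw [Subgroup.commutator_le]
      intro a ha b hb
      refine ⟨⁅(⟨a, ha⟩ : N), (⟨b, hb⟩ : N)⁆, ?_, rfl⟩
      rw [SetLike.mem_coe, Subgroup.mem_comap, map_commutatorElement]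
      exact Subgroup.commutator_mem_commutator ⟨_, rfl⟩ ⟨_, rfl⟩
    intro d
    obtain ⟨n, hn, hnd⟩ := h1 d.2
    have h2 : Subgroup.inclusion hNN d = n := Subtype.ext hnd.symm
    rw [h2]
    exact hn
  let μ0 : (⁅N, N⁆ : Subgroup H) →* (⁅P, P⁆ : Subgroup L) :=
    (ψ.comp (Subgroup.inclusion hNN)).codRestrict ⁅P, P⁆ hmem
  have hμ0 : ∀ d : (⁅N, N⁆ : Subgroup H), ((μ0 d : (⁅P, P⁆ : Subgroup L)) : L) =
      ψ (Subgroup.inclusion hNN d) := fun d => rfl
  refine ⟨f.comp μ0, ?_, ?_⟩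
  · intro d
    rw [MonoidHom.comp_apply, ← map_one f, hf.eq_iff]
    constructor
    · intro h u hu
      have h1 := congrArg Subtype.val h
      rw [hμ0] at h1
      have h2 := hψ (Subgroup.inclusion hNN d) ⟨u, hu⟩
      rw [h1] at h2
      exact h2.symm
    · intro h
      apply Subtype.ext
      rw [hμ0]
      apply hLfaith
      intro u
      apply Subtype.ext
      rw [hψ]
      exact h u u.2
  · intro d hd u hu hu0 hdu u' hu'
    have h1 := hDs _ (hmem ⟨d, hd⟩) ⟨u, hu⟩ (fun h => hu0 (congrArg Subtype.val h))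
      (Subtype.ext hdu) ⟨u', hu'⟩
    exact congrArg Subtype.val h1

end Pool.Agent.INW
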