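import Mathlib

/-!
# Nonvanishing elements of finite groups: the one lemma from character theory
-/

namespace Pool.Agent.INW

open Representation

universe u

/-- An element `x` of a group `G` is nonvanishing if no complex irreducible character of `G`
vanishes at `x`: for every irreducible representation `ρ` of `G` on some `ℂ ^ n` the trace of
`ρ x` is nonzero. -/
def IsNonvanishing {G : Type u} [Group G] (x : G) : Prop :=
  ∀ (n : ℕ) (ρ : Representation ℂ G (Fin n → ℂ)), ρ.IsIrreducible → ρ.character x ≠ 0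

section Irred

variable {G : Type*} [Group G] {V : Type*} [AddCommGroup V] [Module ℂ V]

theorem isIrreducible_iff (ρ : Representation ℂ G V) :
    ρ.IsIrreducible ↔ Nontrivial V ∧
      ∀ U : Submodule ℂ V, (∀ g, ∀ v ∈ U, ρ g v ∈ U) → U = ⊥ ∨ U = ⊤ := by
  constructor
  · intro h
    have hn : Nontrivial (Subrepresentation ρ) := h.toNontrivial
    constructor
    · by_contra hV
      rw [not_nontrivial_iff_subsingleton] at hV
      obtain ⟨a, b, hab⟩ := hn
      exact hab (Subrepresentation.toSubmodule_injective (Subsingleton.elim _ _))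
    · intro U hU
      rcases h.eq_bot_or_eq_top ⟨U, hU⟩ with h1 | h1
      · left
        exact congrArg Subrepresentation.toSubmodule h1
      · right
        exact congrArg Subrepresentation.toSubmodule h1
  · rintro ⟨hV, h⟩
    have hn : Nontrivial (Subrepresentation ρ) := by
      refine ⟨⟨⊥, ⊤, fun e => ?_⟩⟩
      have : (⊥ : Submodule ℂ V) = ⊤ := congrArg Subrepresentation.toSubmodule e
      exact bot_ne_top this
    exact { hn with
      eq_bot_or_eq_top := fun U => by
        rcases h U.toSubmodule (fun g v hv => U.apply_mem_toSubmodule g hv) with h1 | h1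
        · left
          exact Subrepresentation.toSubmodule_injective h1
        · right
          exact Subrepresentation.toSubmodule_injective h1 }

end Irred

theorem IsNonvanishing.trace_ne_zero {G : Type u} [Group G] {x : G} (hx : IsNonvanishing x)
    {V : Type*} [AddCommGroup V] [Module ℂ V] [FiniteDimensional ℂ V]
    (ρ : Representation ℂ G V) (hρ : ρ.IsIrreducible) : LinearMap.trace ℂ V (ρ x) ≠ 0 := by
  let n := Module.finrank ℂ V
  let e : V ≃ₗ[ℂ] (Fin n → ℂ) := LinearEquiv.ofFinrankEq V (Fin n → ℂ) (by simp [n])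
  let ρ' : Representation ℂ G (Fin n → ℂ) :=
    { toFun := fun g => e.conj (ρ g)
      map_one' := by
        ext v
        simp
      map_mul' := fun a b => by
        apply LinearMap.ext
        intro v
        simp [LinearEquiv.conj_apply] }
  have hρ'v : ∀ g v, ρ' g v = e (ρ g (e.symm v)) := fun g v => rfl
  rw [isIrreducible_iff] at hρ
  obtain ⟨hn, hU⟩ := hρ
  have hρ' : ρ'.IsIrreducible := by
    rw [isIrreducible_iff]
    refine ⟨e.symm.toEquiv.nontrivial, fun U hUi => ?_⟩
    rcases hU (U.comap e.toLinearMap) (fun g v hv => by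
      have := hUi g (e v) hv
      rw [hρ'v] at this
      simpa using this) with h1 | h1
    · left
      rw [eq_bot_iff]
      intro v hv
      have : e.symm v ∈ U.comap e.toLinearMap := by simpa using hv
      rw [h1] at this
      simpa using this
    · right
      rw [eq_top_iff]
      intro v _
      have : e.symm v ∈ U.comap e.toLinearMap := by rw [h1]; trivial
      simpa using this
  have := hx n ρ' hρ'
  intro h0
  apply this
  change LinearMap.trace ℂ _ (e.conj (ρ x)) = 0
  rw [LinearMap.trace_conj', h0]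

section Clifford

variable {G : Type u} [Group G] [Finite G]

/-- Every linear character of a subgroup occurs in some irreducible representation. -/
theorem exists_irreducible_eigenvector (J : Subgroup G) (lam : J →* ℂˣ) :
    ∃ (V : Type u) (_ : AddCommGroup V) (_ : Module ℂ V) (_ : FiniteDimensional ℂ V)
      (ρ : Representation ℂ G V) (v : V), ρ.IsIrreducible ∧ v ≠ 0 ∧
        ∀ c : J, ρ c v = (lam c : ℂ) • v := by
  classical
  have := Fintype.ofFinite G
  have := Fintype.ofFinite J
  let Pr : ℕ → Prop := fun n => ∃ (V : Type u) (_ : AddCommGroup V) (_ : Module ℂ V)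
    (_ : FiniteDimensional ℂ V) (ρ : Representation ℂ G V) (v : V),
      Module.finrank ℂ V = n ∧ v ≠ 0 ∧ ∀ c : J, ρ c v = (lam c : ℂ) • v
  have hex : ∃ n, Pr n := by
    -- the function representation
    let ρ0 : Representation ℂ G (G → ℂ) :=
      { toFun := fun g => LinearMap.funLeft ℂ ℂ (fun a => g⁻¹ * a)
        map_one' := by
          apply LinearMap.ext
          intro f
          funext a
          simp [LinearMap.funLeft_apply]
        map_mul' := fun a b => by
          apply LinearMap.ext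
          intro f
          funext c
          simp [LinearMap.funLeft_apply, mul_assoc] }
    let v : G → ℂ := fun a => if h : a ∈ J then ((lam ⟨a, h⟩)⁻¹ : ℂˣ) else 0
    refine ⟨_, G → ℂ, inferInstance, inferInstance, inferInstance, ρ0, v, rfl, ?_, ?_⟩
    · intro h
      have := congrFun h 1
      simp [v, J.one_mem] at this
    · intro c
      funext a
      change v ((c : G)⁻¹ * a) = (lam c : ℂ) * v a
      by_cases ha : a ∈ J
      · have h1 : (c : G)⁻¹ * a ∈ J := J.mul_mem (J.inv_mem c.2) ha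
        simp only [v, dif_pos ha, dif_pos h1]
        have : (⟨(c : G)⁻¹ * a, h1⟩ : J) = c⁻¹ * ⟨a, ha⟩ := rfl
        rw [this, map_mul, map_inv]
        push_cast
        simp [mul_comm]
      · have h1 : (c : G)⁻¹ * a ∉ J := fun h => ha (by
          have := J.mul_mem c.2 h
          simpa using this)
        simp [v, dif_neg ha, dif_neg h1]
  obtain ⟨V, i1, i2, i3, ρ, v, hfr, hv, hc⟩ := Nat.find_spec hex
  have hmin : ∀ m, m < Nat.find hex → ¬ Pr m := fun m hm => Nat.find_min hex hm
  refine ⟨V, i1, i2, i3, ρ, v, ?_, hv, hc⟩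
  rw [isIrreducible_iff]
  refine ⟨⟨⟨v, 0, hv⟩⟩, fun U hU => ?_⟩
  by_contra hcon
  push Not at hcon
  obtain ⟨hb, ht⟩ := hcon
  by_cases hvU : v ∈ U
  · apply hmin (Module.finrank ℂ U)
    · rw [← hfr]
      exact Submodule.finrank_lt ht
    · refine ⟨U, inferInstance, inferInstance, inferInstance,
        ρ.subrepresentation U (fun g w hw => hU g w hw), ⟨v, hvU⟩, rfl, ?_, ?_⟩
      · intro h
        exact hv (congrArg Subtype.val h)
      · intro c
        apply Subtype.ext
        exact hc c
  · apply hmin (Module.finrank ℂ (V ⧸ U))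
    · rw [← hfr]
      have h1 := Submodule.finrank_quotient_add_finrank U
      have h2 : 0 < Module.finrank ℂ U := by
        rw [Module.finrank_pos_iff]
        exact Submodule.nontrivial_iff_ne_bot.2 hb
      omega
    · refine ⟨V ⧸ U, inferInstance, inferInstance, inferInstance,
        ρ.quotient U (fun g w hw => hU g w hw), U.mkQ v, rfl, ?_, ?_⟩
      · intro h
        apply hvU
        simpa using h
      · intro c
        change U.mkQ (ρ c v) = _
        rw [hc c, map_smul]

/-- The conjugate `c ↦ μ (g⁻¹ c g)` of a linear character of a normal subgroup. -/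
def conjChar {J : Subgroup G} [J.Normal] (g : G) (μ : J →* ℂˣ) : J →* ℂˣ :=
  μ.comp (MulAut.conjNormal g⁻¹ : MulAut J).toMonoidHom

omit [Finite G] in
theorem conjChar_apply {J : Subgroup G} [J.Normal] (g : G) (μ : J →* ℂˣ) (c : J) :
    conjChar g μ c = μ ⟨g⁻¹ * c * g, by
      simpa using (inferInstance : J.Normal).conj_mem c c.2 g⁻¹⟩ := by
  unfold conjChar
  simp only [MonoidHom.comp_apply, MulEquiv.toMonoidHom_eq_coe, MonoidHom.coe_coe]
  congr 1
  apply Subtype.ext
  simp

omit [Finite G] in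
theorem conjChar_mul {J : Subgroup G} [J.Normal] (g h : G) (μ : J →* ℂˣ) :
    conjChar (g * h) μ = conjChar g (conjChar h μ) := by
  ext c
  rw [conjChar_apply, conjChar_apply, conjChar_apply]
  congr 2
  apply Subtype.ext
  simp [mul_assoc]

omit [Finite G] in
theorem conjChar_one {J : Subgroup G} [J.Normal] (μ : J →* ℂˣ) :
    conjChar (1 : G) μ = μ := by
  ext c
  rw [conjChar_apply]
  congr 2
  apply Subtype.ext
  simp

variable {V : Type*} [AddCommGroup V] [Module ℂ V]

open Classical in
/-- The projection onto the `μ`-eigenspace of `J`. -/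
noncomputable def proj (J : Subgroup G) (ρ : Representation ℂ G V) (μ : J →* ℂˣ) :
    V →ₗ[ℂ] V :=
  have := Fintype.ofFinite J
  ((Nat.card J : ℂ)⁻¹) • ∑ c : J, (((μ c)⁻¹ : ℂˣ) : ℂ) • ρ c

open Classical in
theorem proj_def (J : Subgroup G) [hJf : Fintype J] (ρ : Representation ℂ G V) (μ : J →* ℂˣ) :
    proj J ρ μ = ((Nat.card J : ℂ)⁻¹) • ∑ c : J, (((μ c)⁻¹ : ℂˣ) : ℂ) • ρ c := by
  have h : Fintype.ofFinite J = hJf := Subsingleton.elim _ _
  unfold proj
  rw [h]

theorem mul_proj (J : Subgroup G) (ρ : Representation ℂ G V) (μ : J →* ℂˣ) (c : J) :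
    ρ c * proj J ρ μ = ((μ c : ℂˣ) : ℂ) • proj J ρ μ := by
  classical
  have := Fintype.ofFinite J
  rw [proj_def, mul_smul_comm, smul_comm]
  congr 1
  rw [Finset.mul_sum, Finset.smul_sum]
  refine Fintype.sum_bijective (c * ·) (Group.mulLeft_bijective c) _ _ (fun d => ?_)
  rw [mul_smul_comm, ← map_mul, smul_smul, map_mul μ]
  congr 1
  push_cast
  field_simp

theorem proj_mul (J : Subgroup G) (ρ : Representation ℂ G V) (μ : J →* ℂˣ) (c : J) :
    proj J ρ μ * ρ c = ((μ c : ℂˣ) : ℂ) • proj J ρ μ := by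
  classical
  have := Fintype.ofFinite J
  rw [proj_def, smul_mul_assoc, smul_comm]
  congr 1
  rw [Finset.sum_mul, Finset.smul_sum]
  refine Fintype.sum_bijective (· * c) (Group.mulRight_bijective c) _ _ (fun d => ?_)
  rw [smul_mul_assoc, ← map_mul, smul_smul, map_mul μ]
  congr 1
  push_cast
  field_simp

theorem proj_apply_eigen (J : Subgroup G) (ρ : Representation ℂ G V) (μ : J →* ℂˣ) (v : V)
    (hv : ∀ c : J, ρ c v = ((μ c : ℂˣ) : ℂ) • v) : proj J ρ μ v = v := by
  classical
  have := Fintype.ofFinite J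
  rw [proj_def, LinearMap.smul_apply, LinearMap.sum_apply]
  have : ∀ c : J, ((((μ c)⁻¹ : ℂˣ) : ℂ) • ρ c) v = v := by
    intro c
    rw [LinearMap.smul_apply, hv, smul_smul]
    simp
  rw [Finset.sum_congr rfl (fun c _ => this c), Finset.sum_const, Finset.card_univ,
    ← Nat.card_eq_fintype_card, ← Nat.cast_smul_eq_nsmul ℂ, smul_smul, inv_mul_cancel₀, one_smul]
  exact_mod_cast Nat.card_pos.ne'

theorem proj_apply_eigen_ne (J : Subgroup G) (ρ : Representation ℂ G V) (μ ν : J →* ℂˣ)
    (hne : μ ≠ ν) (v : V) (hv : ∀ c : J, ρ c v = ((ν c : ℂˣ) : ℂ) • v) : proj J ρ μ v = 0 := by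
  obtain ⟨c, hc⟩ : ∃ c, μ c ≠ ν c := by
    by_contra h
    push Not at h
    exact hne (MonoidHom.ext h)
  have h1 : (proj J ρ μ * ρ c) v = ((μ c : ℂˣ) : ℂ) • proj J ρ μ v := by
    rw [proj_mul]; rfl
  have h2 : (proj J ρ μ * ρ c) v = ((ν c : ℂˣ) : ℂ) • proj J ρ μ v := by
    rw [Module.End.mul_apply, hv, map_smul]
  rw [h1] at h2
  have h3 : (((μ c : ℂˣ) : ℂ) - ((ν c : ℂˣ) : ℂ)) • proj J ρ μ v = 0 := by
    rw [sub_smul, h2, sub_self]
  rcases smul_eq_zero.1 h3 with h4 | h4
  · exact absurd (Units.ext (sub_eq_zero.1 h4)) hc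
  · exact h4

theorem conj_proj (J : Subgroup G) [J.Normal] (ρ : Representation ℂ G V) (μ : J →* ℂˣ) (g : G) :
    ρ g * proj J ρ μ = proj J ρ (conjChar g μ) * ρ g := by
  classical
  have := Fintype.ofFinite J
  rw [proj_def, proj_def, mul_smul_comm, smul_mul_assoc]
  congr 1
  rw [Finset.mul_sum, Finset.sum_mul]
  refine Fintype.sum_bijective (MulAut.conjNormal g : MulAut J) (MulEquiv.bijective _) _ _
    (fun d => ?_)
  rw [mul_smul_comm, smul_mul_assoc, ← map_mul, ← map_mul]
  congr 1
  · rw [conjChar_apply]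
    congr 3
    apply Subtype.ext
    simp [mul_assoc]
  · congr 1
    simp [MulAut.conjNormal_apply, mul_assoc]

/-- The lemma from character theory. If `x` is nonvanishing and `lam` is a linear character of a
normal subgroup `J`, then some conjugate `y` of `x` has `lam [y, g] = 1` whenever `g` fixes `lam`
and `[y, g] ∈ J`. -/
theorem IsNonvanishing.exists_conj {x : G} (hx : IsNonvanishing x) (J : Subgroup G) [J.Normal]
    (lam : J →* ℂˣ) :
    ∃ h : G, ∀ g : G, conjChar g lam = lam →
      ∀ hd : (h⁻¹ * x * h)⁻¹ * g⁻¹ * (h⁻¹ * x * h) * g ∈ J,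
        lam ⟨(h⁻¹ * x * h)⁻¹ * g⁻¹ * (h⁻¹ * x * h) * g, hd⟩ = 1 := by
  classical
  have := Fintype.ofFinite G
  obtain ⟨V, i1, i2, i3, ρ, v, hirr, hv0, hv⟩ := exists_irreducible_eigenvector J lam
  -- the orbit of `lam`
  let O : Finset (J →* ℂˣ) := Finset.univ.image (fun g : G => conjChar g lam)
  let ε : V →ₗ[ℂ] V := ∑ μ ∈ O, proj J ρ μ
  have hO : ∀ g : G, ∀ μ, μ ∈ O ↔ conjChar g μ ∈ O := by
    intro g μ
    simp only [O, Finset.mem_image, Finset.mem_univ, true_and]
    constructor
    · rintro ⟨a, rfl⟩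
      exact ⟨g * a, conjChar_mul g a lam⟩
    · rintro ⟨a, ha⟩
      refine ⟨g⁻¹ * a, ?_⟩
      rw [conjChar_mul, ha, ← conjChar_mul, inv_mul_cancel, conjChar_one]
  have hcomm : ∀ g : G, ρ g * ε = ε * ρ g := by
    intro g
    simp only [ε, Finset.mul_sum, Finset.sum_mul]
    refine Finset.sum_bij (fun μ _ => conjChar g μ) (fun μ hμ => (hO g μ).1 hμ) ?_ ?_ ?_
    · intro μ _ ν _ h
      have := congrArg (conjChar g⁻¹) h
      simpa [← conjChar_mul, conjChar_one] using this
    · intro μ hμ
      refine ⟨conjChar g⁻¹ μ, (hO g⁻¹ μ).1 hμ, ?_⟩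
      rw [← conjChar_mul, mul_inv_cancel, conjChar_one]
    · intro μ _
      exact conj_proj J ρ μ g
  have hlamO : lam ∈ O := by
    simp only [O, Finset.mem_image, Finset.mem_univ, true_and]
    exact ⟨1, conjChar_one lam⟩
  have hεv : ε v = v := by
    simp only [ε, LinearMap.sum_apply]
    rw [Finset.sum_eq_single_of_mem lam hlamO]
    · exact proj_apply_eigen J ρ lam v hv
    · intro μ _ hne
      exact proj_apply_eigen_ne J ρ μ lam hne v hv
  have hε : ε = 1 := by
    rw [isIrreducible_iff] at hirr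
    rcases hirr.2 (LinearMap.ker (ε - 1)) (fun g w hw => by
      rw [LinearMap.mem_ker, LinearMap.sub_apply, sub_eq_zero] at hw ⊢
      have := congrArg (fun f : V →ₗ[ℂ] V => f w) (hcomm g)
      simp only [Module.End.mul_apply] at this
      rw [← this, hw]
      rfl) with h1 | h1
    · exfalso
      apply hv0
      have : v ∈ LinearMap.ker (ε - 1) := by
        rw [LinearMap.mem_ker, LinearMap.sub_apply, hεv]
        simp
      rw [h1] at this
      simpa using this
    · rw [LinearMap.ker_eq_top] at h1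
      exact sub_eq_zero.1 h1
  have htr : LinearMap.trace ℂ V (ρ x) ≠ 0 := hx.trace_ne_zero ρ hirr
  have hsum : LinearMap.trace ℂ V (ρ x) =
      ∑ μ ∈ O, LinearMap.trace ℂ V (proj J ρ μ * ρ x) := by
    rw [← map_sum, ← Finset.sum_mul]
    change _ = LinearMap.trace ℂ V (ε * ρ x)
    rw [hε, one_mul]
  obtain ⟨μ, hμO, hμ⟩ : ∃ μ ∈ O, LinearMap.trace ℂ V (proj J ρ μ * ρ x) ≠ 0 := by
    by_contra hcon
    push Not at hcon
    exact htr (by rw [hsum]; exact Finset.sum_eq_zero hcon)
  -- the key computation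
  have key : ∀ g : G, conjChar g μ = μ → ∀ hd : x⁻¹ * g⁻¹ * x * g ∈ J,
      μ ⟨x⁻¹ * g⁻¹ * x * g, hd⟩ = 1 := by
    intro g hg hd
    have hg' : conjChar g⁻¹ μ = μ := by
      conv_lhs => rw [← hg]
      rw [← conjChar_mul, inv_mul_cancel, conjChar_one]
    have h1 : LinearMap.trace ℂ V (proj J ρ μ * ρ x) =
        ((μ ⟨x⁻¹ * g⁻¹ * x * g, hd⟩ : ℂˣ) : ℂ) *
          LinearMap.trace ℂ V (proj J ρ μ * ρ x) := by
      calc LinearMap.trace ℂ V (proj J ρ μ * ρ x)
          = LinearMap.trace ℂ V (ρ g * (ρ g⁻¹ * (proj J ρ μ * ρ x))) := by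
            rw [← mul_assoc, ← map_mul, mul_inv_cancel, map_one, one_mul]
        _ = LinearMap.trace ℂ V (ρ g⁻¹ * (proj J ρ μ * ρ x) * ρ g) := by
            rw [LinearMap.trace_mul_comm]
        _ = LinearMap.trace ℂ V (proj J ρ μ * (ρ g⁻¹ * ρ x * ρ g)) := by
            rw [← mul_assoc, conj_proj, hg']
            simp only [mul_assoc]
        _ = LinearMap.trace ℂ V (proj J ρ μ * (ρ x * ρ (x⁻¹ * g⁻¹ * x * g))) := by
            rw [← map_mul, ← map_mul, ← map_mul]
            congr 3
            group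
        _ = LinearMap.trace ℂ V (ρ (x⁻¹ * g⁻¹ * x * g) * (proj J ρ μ * ρ x)) := by
            rw [← mul_assoc, LinearMap.trace_mul_comm]
        _ = _ := by
            rw [← mul_assoc]
            have := mul_proj J ρ μ ⟨x⁻¹ * g⁻¹ * x * g, hd⟩
            simp only at this
            rw [this, smul_mul_assoc, map_smul, smul_eq_mul]
    have h2 : (((μ ⟨x⁻¹ * g⁻¹ * x * g, hd⟩ : ℂˣ) : ℂ) - 1) *
        LinearMap.trace ℂ V (proj J ρ μ * ρ x) = 0 := by
      rw [sub_mul, one_mul, ← h1, sub_self]
    rcases mul_eq_zero.1 h2 with h3 | h3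
    · exact Units.ext (by simpa using sub_eq_zero.1 h3)
    · exact absurd h3 hμ
  obtain ⟨h, rfl⟩ : ∃ h : G, conjChar h lam = μ := by
    simpa [O] using hμO
  refine ⟨h, fun g hg hd => ?_⟩
  have hg2 : conjChar (h * g * h⁻¹) (conjChar h lam) = conjChar h lam := by
    rw [← conjChar_mul, inv_mul_cancel_right, conjChar_mul, hg]
  have e1 : x⁻¹ * (h * g * h⁻¹)⁻¹ * x * (h * g * h⁻¹) =
      h * ((h⁻¹ * x * h)⁻¹ * g⁻¹ * (h⁻¹ * x * h) * g) * h⁻¹ := by group
  have hd2 : x⁻¹ * (h * g * h⁻¹)⁻¹ * x * (h * g * h⁻¹) ∈ J := by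
    rw [e1]
    exact (inferInstance : J.Normal).conj_mem _ hd h
  have := key (h * g * h⁻¹) hg2 hd2
  rw [conjChar_apply] at this
  rw [← this]
  congr 1
  apply Subtype.ext
  simp only
  group

end Clifford

end Pool.Agent.INW
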