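import Mathlib

/-!
# Nilpotent normal subgroups of permutation groups

`lemP`: if a group `H` acts on `ι`, the normal closure `N` of `x` is nilpotent and every subset of
`ι` is stabilised by some conjugate of `x`, then `N` acts trivially on `ι`.
-/

namespace Pool.Agent.INW

open scoped commutatorElement

variable {H : Type*} [Group H] {ι : Type*} [MulAction H ι]

/-- The elements moving every point inside its `Z`-orbit. -/
def orbKernel (ι : Type*) [MulAction H ι] (Z : Subgroup H) : Subgroup H where
  carrier := {h | ∀ i : ι, ∃ z ∈ Z, h • i = z • i}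
  one_mem' := fun i => ⟨1, Z.one_mem, rfl⟩
  mul_mem' := by
    intro a b ha hb i
    obtain ⟨z, hz, h1⟩ := hb i
    obtain ⟨z', hz', h2⟩ := ha (z • i)
    exact ⟨z' * z, Z.mul_mem hz' hz, by rw [mul_smul, h1, h2, mul_smul]⟩
  inv_mem' := by
    intro a ha i
    obtain ⟨z, hz, h1⟩ := ha (a⁻¹ • i)
    refine ⟨z⁻¹, Z.inv_mem hz, ?_⟩
    rw [smul_inv_smul] at h1
    rw [eq_inv_smul_iff, ← h1]

theorem mem_orbKernel {Z : Subgroup H} {h : H} :
    h ∈ orbKernel ι Z ↔ ∀ i : ι, ∃ z ∈ Z, h • i = z • i := Iff.rfl

instance orbKernel_normal (Z : Subgroup H) [Z.Normal] : (orbKernel ι Z).Normal where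
  conj_mem := by
    intro n hn g i
    obtain ⟨z, hz, h1⟩ := hn (g⁻¹ • i)
    refine ⟨g * z * g⁻¹, Subgroup.Normal.conj_mem inferInstance z hz g, ?_⟩
    rw [mul_smul, mul_smul, h1, mul_smul, mul_smul]

theorem lowerCentralSeries_normal (N : Subgroup H) [N.Normal] (c : ℕ) :
    (N.lowerCentralSeries c).Normal := by
  induction c with
  | zero => exact inferInstanceAs N.Normal
  | succ c ih =>
    rw [Subgroup.lowerCentralSeries_succ]
    exact Subgroup.commutator_normal _ _

theorem lemP (x : H) [hnil : Group.IsNilpotent (Subgroup.normalClosure ({x} : Set H))]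
    (hT : ∀ T : Set ι, ∃ h : H, ∀ t ∈ T, (h⁻¹ * x * h) • t ∈ T) :
    ∀ n ∈ Subgroup.normalClosure ({x} : Set H), ∀ i : ι, n • i = i := by
  classical
  set N := Subgroup.normalClosure ({x} : Set H) with hN
  have hNn : N.Normal := inferInstance
  have key : ∀ c, N ≤ orbKernel ι (N.lowerCentralSeries c) := by
    intro c
    induction c with
    | zero => exact fun n hn i => ⟨n, hn, rfl⟩
    | succ c ih =>
      have hZn : (N.lowerCentralSeries c).Normal := lowerCentralSeries_normal N c
      have hZ'n : (N.lowerCentralSeries (c + 1)).Normal := lowerCentralSeries_normal N (c + 1)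
      set Z := N.lowerCentralSeries c with hZ
      set Z' := N.lowerCentralSeries (c + 1) with hZ'
      have hle : Z' ≤ Z := Subgroup.lowerCentralSeries_antitone N (Nat.le_succ c)
      -- representatives of `Z`-orbits
      have hrep : ∃ t : ι → ι, (∀ i, ∃ z ∈ Z, i = z • t i) ∧
          (∀ i j, (∃ z ∈ Z, i = z • j) → t i = t j) := by
        refine ⟨fun i => Quotient.out (Quotient.mk (MulAction.orbitRel Z ι) i), ?_, ?_⟩
        · intro i
          have h1 : (MulAction.orbitRel Z ι).r
              (Quotient.out (Quotient.mk (MulAction.orbitRel Z ι) i)) i :=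
            Quotient.exact (Quotient.out_eq _)
          have h2 := (MulAction.orbitRel_apply.1 h1)
          obtain ⟨z, hz⟩ := h2
          refine ⟨(z : H)⁻¹, Z.inv_mem z.2, ?_⟩
          rw [eq_inv_smul_iff]
          exact hz
        · rintro i j ⟨z, hz, hij⟩
          have h1 : Quotient.mk (MulAction.orbitRel Z ι) i = Quotient.mk (MulAction.orbitRel Z ι) j :=
            Quotient.sound (MulAction.orbitRel_apply.2 ⟨⟨z, hz⟩, hij.symm⟩)
          simp only [h1]
      obtain ⟨t, ht1, ht2⟩ := hrep
      have htt : ∀ i, t (t i) = t i := fun i => by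
        obtain ⟨z, hz, h1⟩ := ht1 i
        exact (ht2 i (t i) ⟨z, hz, h1⟩).symm
      obtain ⟨h, hh⟩ := hT {j | ∃ i, ∃ z ∈ Z', j = z • t i}
      set y := h⁻¹ * x * h with hy
      have hxN : x ∈ N := Subgroup.subset_normalClosure (Set.mem_singleton x)
      have hyN : y ∈ N := by
        have := hNn.conj_mem x hxN h⁻¹
        rwa [inv_inv] at this
      have hyK : y ∈ orbKernel ι Z' := by
        intro i
        -- first for representatives
        obtain ⟨i', z', hz', h1⟩ := hh (t i) ⟨i, 1, Z'.one_mem, (one_smul _ _).symm⟩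
        obtain ⟨z1, hz1, h2⟩ := ih hyN (t i)
        have h3 : t i' = t i := by
          have h4 : ∃ z ∈ Z, t i' = z • t i := by
            refine ⟨z'⁻¹ * z1, Z.mul_mem (Z.inv_mem (hle hz')) hz1, ?_⟩
            rw [mul_smul, ← h2, h1, inv_smul_smul]
          have h5 := ht2 _ _ h4
          rwa [htt, htt] at h5
        rw [h3] at h1
        obtain ⟨z, hz, h6⟩ := ht1 i
        refine ⟨⁅y, z⁆ * (z * z' * z⁻¹), Z'.mul_mem ?_ (hZ'n.conj_mem z' hz' z), ?_⟩
        · have h7 : ⁅z, y⁆ ∈ Z' := by
            rw [hZ', Subgroup.lowerCentralSeries_succ]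
            exact Subgroup.commutator_mem_commutator hz hyN
          have h8 := Z'.inv_mem h7
          rwa [commutatorElement_inv] at h8
        · have h9 : ⁅y, z⁆ * (z * z' * z⁻¹) = y * z * y⁻¹ * z' * z⁻¹ := by
            rw [commutatorElement_def]; group
          rw [h9]
          conv_lhs => rw [h6]
          conv_rhs => rw [h6]
          rw [← mul_smul, ← mul_smul]
          have h10 : y * z * y⁻¹ * z' * z⁻¹ * z = (y * z * y⁻¹) * z' := by group
          rw [h10, mul_smul (y * z * y⁻¹), ← h1, ← mul_smul]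
          congr 1
          group
      have hxK : x ∈ orbKernel ι Z' := by
        have := (orbKernel_normal (ι := ι) Z').conj_mem y hyK h
        have e : h * y * h⁻¹ = x := by rw [hy]; group
        rwa [e] at this
      exact Subgroup.normalClosure_le_normal (by simpa using hxK)
  obtain ⟨n, hn⟩ := (Subgroup.isNilpotent_iff_lowerCentralSeries (S := N)).1 hnil
  intro g hg i
  obtain ⟨z, hz, h1⟩ := key n hg i
  rw [hn, Subgroup.mem_bot] at hz
  rw [h1, hz, one_smul]

end Pool.Agent.INW
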