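import Mathlib
import Pool.Agent.INW.Char
import Pool.Agent.INW.Perm
import Pool.Agent.INW.Blk

/-!
# Nonvanishing elements and irreducible modules
-/

namespace Pool.Agent.INW

open scoped Pointwise commutatorElement

universe u

theorem thmA {H : Type u} {M : Type*} [Group H] [Finite H] [AddCommGroup M] [Finite M]
    [DistribMulAction H M] [FaithfulSMul H M] (r : ℕ) [hrp : Fact r.Prime]
    (hr : ∀ m : M, r • m = 0) (hM : ∃ m : M, m ≠ 0)
    (irr : ∀ S : AddSubgroup M, (∀ h : H, ∀ m ∈ S, h • m ∈ S) → S = ⊥ ∨ S = ⊤)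
    {x : H} (hx : IsNonvanishing x)
    [hnil : Group.IsNilpotent (Subgroup.normalClosure ({x} : Set H))]
    (hb : ∀ m : M, ∃ h : H, (h⁻¹ * x * h) • m = m) : x = 1 := by
  classical
  by_contra hx1
  set N := Subgroup.normalClosure ({x} : Set H) with hN
  have hNn : N.Normal := inferInstance
  have hxN : x ∈ N := Subgroup.subset_normalClosure (Set.mem_singleton x)
  have hyN : ∀ h : H, h⁻¹ * x * h ∈ N := by
    intro h
    have := hNn.conj_mem x hxN h⁻¹
    rwa [inv_inv] at this
  have hcop : (Nat.card N).Coprime r :=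
    ((Nat.Prime.coprime_iff_not_dvd hrp.out).2 (not_dvd_card r hr hM irr N)).symm
  -- a minimal block
  let Pr : ℕ → Prop := fun n => ∃ W : AddSubgroup M, W ≠ ⊥ ∧ Ind (orb H W) ∧ Nat.card W = n
  have hex : ∃ n, Pr n := by
    refine ⟨_, ⊤, ?_, ?_, rfl⟩
    · obtain ⟨m, hm⟩ := hM
      intro h
      apply hm
      rw [← AddSubgroup.mem_bot, ← h]
      trivial
    · have h1 : orb H (⊤ : AddSubgroup M) = {⊤} := by
        ext T
        rw [mem_orb, Finset.mem_singleton]
        constructor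
        · rintro ⟨h, rfl⟩
          ext m
          rw [AddSubgroup.mem_pointwise_smul_iff_inv_smul_mem]
          simp
        · rintro rfl
          exact ⟨1, one_smul _ _⟩
      intro f hf hsum T hT
      rw [h1, Finset.sum_singleton] at hsum
      rw [h1, Finset.mem_singleton] at hT
      rw [hT]
      exact hsum
  obtain ⟨W, hW, hind, hWcard⟩ := Nat.find_spec hex
  have hmin : ∀ U : AddSubgroup M, U ≠ ⊥ → Ind (orb H U) → Nat.card W ≤ Nat.card U := by
    intro U h1 h2
    rw [hWcard]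
    exact Nat.find_min' hex ⟨U, h1, h2, rfl⟩
  set I := orb H W with hI
  have hIsmul : ∀ (h : H) (U : AddSubgroup M), U ∈ I → h • U ∈ I := fun h U hU => smul_mem_orb h hU
  have hnz : ∀ U ∈ I, ∃ m ∈ U, m ≠ 0 := by
    intro U hU
    obtain ⟨h, rfl⟩ := mem_orb.1 hU
    obtain ⟨a, ha⟩ := (AddSubgroup.ne_bot_iff_exists_ne_zero).1 hW
    refine ⟨h • (a : M), AddSubgroup.smul_mem_pointwise_smul _ _ _ a.2, fun h' => ha ?_⟩
    exact Subtype.ext ((smul_eq_zero_iff_eq h).1 h')
  have hIne : ∀ U ∈ I, U ≠ ⊥ := by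
    intro U hU h
    obtain ⟨m, hm, hm0⟩ := hnz U hU
    rw [h, AddSubgroup.mem_bot] at hm
    exact hm0 hm
  have hIorb : ∀ U ∈ I, orb H U = I := by
    intro U hU
    obtain ⟨h, rfl⟩ := mem_orb.1 hU
    ext T
    rw [mem_orb, hI, mem_orb]
    constructor
    · rintro ⟨g, rfl⟩
      exact ⟨g * h, mul_smul _ _ _⟩
    · rintro ⟨g, rfl⟩
      refine ⟨g * h⁻¹, ?_⟩
      rw [mul_smul, inv_smul_smul]
  have hIcard : ∀ U ∈ I, Nat.card U = Nat.card W := by
    intro U hU
    obtain ⟨h, rfl⟩ := mem_orb.1 hU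
    refine Nat.card_congr (Equiv.ofBijective
      (fun w : W => (⟨h • (w : M), AddSubgroup.smul_mem_pointwise_smul _ _ _ w.2⟩ :
        (h • W : AddSubgroup M))) ⟨?_, ?_⟩).symm
    · intro a b hab
      exact Subtype.ext (smul_left_cancel h (congrArg Subtype.val hab))
    · rintro ⟨m, hm⟩
      obtain ⟨s, hs, hsm⟩ := (AddSubgroup.mem_smul_pointwise_iff_exists _ _ _).1 hm
      exact ⟨⟨s, hs⟩, Subtype.ext hsm⟩
  -- an element trivial on all blocks is trivial
  have htriv : ∀ g : H, (∀ U ∈ I, ∀ u ∈ U, g • u = u) → g = 1 := by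
    intro g hg
    let S : AddSubgroup M := AddSubgroup.closure {m | ∃ U ∈ I, m ∈ U}
    have hS := irr S (by
      intro h m hm
      induction hm using AddSubgroup.closure_induction with
      | mem m hm =>
        obtain ⟨U, hU, hmU⟩ := hm
        exact AddSubgroup.subset_closure
          ⟨h • U, hIsmul h U hU, AddSubgroup.smul_mem_pointwise_smul _ _ _ hmU⟩
      | zero => rw [smul_zero]; exact S.zero_mem
      | add a b _ _ ha hb => rw [smul_add]; exact S.add_mem ha hb
      | neg a _ ha => rw [smul_neg]; exact S.neg_mem ha)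
    have hST : S = ⊤ := by
      refine hS.resolve_left fun h => ?_
      obtain ⟨m, hm, hm0⟩ := hnz W (self_mem_orb W)
      have h1 : m ∈ S := AddSubgroup.subset_closure ⟨W, self_mem_orb W, hm⟩
      rw [h, AddSubgroup.mem_bot] at h1
      exact hm0 h1
    apply eq_of_smul_eq_smul (α := M)
    intro m
    rw [one_smul]
    have hm : m ∈ S := by rw [hST]; trivial
    induction hm using AddSubgroup.closure_induction with
    | mem m hm =>
      obtain ⟨U, hU, hmU⟩ := hm
      exact hg U hU m hmU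
    | zero => rw [smul_zero]
    | add a b _ _ ha hb => rw [smul_add, ha, hb]
    | neg a _ ha => rw [smul_neg, ha]
  -- the hypothesis of Lemma P
  have hT : ∀ T ⊆ I, ∃ h : H, ∀ U ∈ T, (h⁻¹ * x * h) • U ∈ T := by
    intro T hTI
    have hch : ∀ U : AddSubgroup M, ∃ m, U ∈ I → m ∈ U ∧ m ≠ 0 := by
      intro U
      by_cases hU : U ∈ I
      · obtain ⟨m, h1, h2⟩ := hnz U hU
        exact ⟨m, fun _ => ⟨h1, h2⟩⟩
      · exact ⟨0, fun h => absurd h hU⟩
    choose w hw using hch
    obtain ⟨h, hh⟩ := hb (∑ U ∈ T, w U)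
    refine ⟨h, ?_⟩
    set y := h⁻¹ * x * h with hy
    have himg : T.image (fun U => y • U) ⊆ I := by
      intro U' hU'
      obtain ⟨U, hU, rfl⟩ := Finset.mem_image.1 hU'
      exact hIsmul y U (hTI hU)
    have h1 := hind (fun U' => (if U' ∈ T.image (fun U => y • U) then y • w (y⁻¹ • U') else 0) -
        (if U' ∈ T then w U' else 0)) (by
      intro U' hU'
      apply U'.sub_mem
      · split_ifs with h1
        · obtain ⟨U, hU, rfl⟩ := Finset.mem_image.1 h1
          simp only [inv_smul_smul]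
          exact AddSubgroup.smul_mem_pointwise_smul _ _ _ (hw U (hTI hU)).1
        · exact U'.zero_mem
      · split_ifs with h1
        · exact (hw U' hU').1
        · exact U'.zero_mem) (by
      rw [Finset.sum_sub_distrib, sub_eq_zero, Finset.sum_ite_mem, Finset.sum_ite_mem,
        Finset.inter_eq_right.2 himg, Finset.inter_eq_right.2 hTI, ← hh, Finset.smul_sum,
        Finset.sum_image (fun a _ b _ hab => smul_left_cancel y hab)]
      simp only [inv_smul_smul])
    intro U hU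
    by_contra hcon
    have h2 := h1 (y • U) (hIsmul y U (hTI hU))
    simp only [if_neg hcon, sub_zero, inv_smul_smul,
      if_pos (Finset.mem_image_of_mem (fun U => y • U) hU)] at h2
    exact (hw U (hTI hU)).2 ((smul_eq_zero_iff_eq y).1 h2)
  -- `N` fixes every block
  have hfix : ∀ n ∈ N, ∀ U ∈ I, n • U = U := by
    have h1 := lemP (ι := MulAction.orbit H W) x (by
      intro T
      obtain ⟨h, hh⟩ := hT (I.filter (fun U => ∃ hU : U ∈ MulAction.orbit H W,
        (⟨U, hU⟩ : MulAction.orbit H W) ∈ T)) (Finset.filter_subset _ _)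
      refine ⟨h, ?_⟩
      rintro ⟨U, hU⟩ hUT
      have h2 := hh U (Finset.mem_filter.2 ⟨mem_orb.2 hU, hU, hUT⟩)
      obtain ⟨_, h3, h4⟩ := Finset.mem_filter.1 h2
      exact h4)
    intro n hn U hU
    exact congrArg Subtype.val (h1 n hn ⟨U, mem_orb.1 hU⟩)
  have hfixU : ∀ n ∈ N, ∀ U ∈ I, ∀ u ∈ U, n • u ∈ U := by
    intro n hn U hU u hu
    have h1 := AddSubgroup.smul_mem_pointwise_smul u n U hu
    rwa [hfix n hn U hU] at h1
  -- characters
  have hchar : ∀ U : AddSubgroup M, ∃ μ : (⁅N, N⁆ : Subgroup H) →* ℂˣ, U ∈ I →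
      (∀ d, μ d = 1 ↔ ∀ u ∈ U, (d : H) • u = u) ∧
      (∀ d ∈ ⁅N, N⁆, ∀ u ∈ U, u ≠ 0 → d • u = u → ∀ u' ∈ U, d • u' = u') := by
    intro U
    by_cases hU : U ∈ I
    · obtain ⟨μ, hμ⟩ := block_char r hr N hcop U (hIne U hU) (by rw [hIorb U hU]; exact hind)
        (by
          intro U' h1 h2
          rw [hIcard U hU]
          exact hmin U' h1 h2) (fun n hn => hfix n hn U hU)
      exact ⟨μ, fun _ => hμ⟩
    · exact ⟨1, fun h => absurd h hU⟩
  choose μ hμ using hchar
  have hNN : (⁅N, N⁆ : Subgroup H) ≤ N := Subgroup.commutator_le_left N N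
  have hNNn : (⁅N, N⁆ : Subgroup H).Normal := Subgroup.commutator_normal N N
  have hNNcomm : ∀ a ∈ ⁅N, N⁆, ∀ b ∈ ⁅N, N⁆, a * b = b * a := by
    intro a ha b hb
    have h1 : ⁅a, b⁆ = 1 := by
      apply htriv
      intro U hU u hu
      have h2 : μ U ⁅(⟨a, ha⟩ : (⁅N, N⁆ : Subgroup H)), (⟨b, hb⟩ : (⁅N, N⁆ : Subgroup H))⁆ = 1 := by
        rw [map_commutatorElement, commutatorElement_eq_one_iff_mul_comm, mul_comm]
      exact ((hμ U hU).1 _).1 h2 u hu
    exact commutatorElement_eq_one_iff_mul_comm.1 h1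
  -- the single-site groups
  let A : AddSubgroup M → Subgroup H := fun U =>
    { carrier := {g | g ∈ ⁅N, N⁆ ∧ ∀ U' ∈ I, U' ≠ U → ∀ u ∈ U', g • u = u}
      one_mem' := ⟨Subgroup.one_mem _, fun _ _ _ u _ => one_smul _ u⟩
      mul_mem' := by
        rintro a b ⟨ha, ha'⟩ ⟨hb, hb'⟩
        refine ⟨Subgroup.mul_mem _ ha hb, fun U' h1 h2 u hu => ?_⟩
        rw [mul_smul, hb' U' h1 h2 u hu, ha' U' h1 h2 u hu]
      inv_mem' := by
        rintro a ⟨ha, ha'⟩
        refine ⟨Subgroup.inv_mem _ ha, fun U' h1 h2 u hu => ?_⟩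
        rw [inv_smul_eq_iff, ha' U' h1 h2 u hu] }
  have hmemA : ∀ U g, g ∈ A U ↔ g ∈ ⁅N, N⁆ ∧ ∀ U' ∈ I, U' ≠ U → ∀ u ∈ U', g • u = u :=
    fun U g => Iff.rfl
  have hAconj : ∀ (h : H) (U : AddSubgroup M) (g : H), g ∈ A U → h * g * h⁻¹ ∈ A (h • U) := by
    intro h U g hg
    rw [hmemA] at hg ⊢
    refine ⟨hNNn.conj_mem g hg.1 h, fun U' h1 h2 u hu => ?_⟩
    have h3 := hg.2 (h⁻¹ • U') (hIsmul _ _ h1) (fun h' => h2 (by rw [← h', smul_inv_smul]))
      (h⁻¹ • u) (AddSubgroup.smul_mem_pointwise_smul _ _ _ hu)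
    rw [mul_smul, mul_smul, h3, smul_inv_smul]
  have hAconjN : ∀ n ∈ N, ∀ U ∈ I, ∀ g ∈ A U, n * g * n⁻¹ ∈ A U := by
    intro n hn U hU g hg
    have := hAconj n U g hg
    rwa [hfix n hn U hU] at this
  let J : Subgroup H := Subgroup.closure {g | ∃ U ∈ I, g ∈ A U}
  have hAJ : ∀ U ∈ I, ∀ g ∈ A U, g ∈ J := fun U hU g hg => Subgroup.subset_closure ⟨U, hU, hg⟩
  have hJn : J.Normal := by
    refine ⟨fun g hg h => ?_⟩
    induction hg using Subgroup.closure_induction with
    | mem g hg =>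
      obtain ⟨U, hU, hgU⟩ := hg
      exact hAJ (h • U) (hIsmul h U hU) _ (hAconj h U g hgU)
    | one =>
      rw [mul_one, mul_inv_cancel]
      exact J.one_mem
    | mul a b _ _ ha hb =>
      have := J.mul_mem ha hb
      have e : h * a * h⁻¹ * (h * b * h⁻¹) = h * (a * b) * h⁻¹ := by group
      rwa [e] at this
    | inv a _ ha =>
      have := J.inv_mem ha
      have e : (h * a * h⁻¹)⁻¹ = h * a⁻¹ * h⁻¹ := by group
      rwa [e] at this
  have hJNN : J ≤ ⁅N, N⁆ := by
    rw [Subgroup.closure_le]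
    rintro g ⟨U, _, hg⟩
    exact hg.1
  let lam : J →* ℂˣ := ∏ U ∈ I, (μ U).comp (Subgroup.inclusion hJNN)
  have hlam : ∀ U ∈ I, ∀ g ∈ A U, ∀ hgJ : g ∈ J, lam ⟨g, hgJ⟩ = 1 → g = 1 := by
    intro U hU g hg hgJ h1
    rw [MonoidHom.finsetProd_apply, Finset.prod_eq_single_of_mem U hU] at h1
    · apply htriv
      intro U' hU' u hu
      by_cases hUU : U' = U
      · subst hUU
        exact ((hμ U' hU').1 _).1 h1 u hu
      · exact hg.2 U' hU' hUU u hu
    · intro U' hU' hne
      exact ((hμ U' hU').1 _).2 (fun u hu => hg.2 U' hU' hne u hu)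
  obtain ⟨h0, hh0⟩ := hx.exists_conj J lam
  set y := h0⁻¹ * x * h0 with hy
  have hyN0 : y ∈ N := hyN h0
  -- `N` centralises `J`
  have hNJ : ∀ n ∈ N, ∀ g ∈ J, g * n = n * g := by
    have h1 : y ∈ Subgroup.centralizer (J : Set H) := by
      have h2 : J ≤ Subgroup.centralizer ({y} : Set H) := by
        rw [Subgroup.closure_le]
        rintro g ⟨U, hU, hg⟩
        rw [SetLike.mem_coe, Subgroup.mem_centralizer_singleton_iff]
        have h3 : y⁻¹ * g⁻¹ * y * g ∈ A U := by
          have h4 := hAconjN y⁻¹ (N.inv_mem hyN0) U hU g⁻¹ ((A U).inv_mem hg)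
          rw [inv_inv] at h4
          exact (A U).mul_mem h4 hg
        have h5 := hh0 g (by
          ext c
          rw [conjChar_apply]
          congr 3
          have h6 := hNNcomm c (hJNN c.2) g hg.1
          rw [mul_assoc, h6, inv_mul_cancel_left]) (hAJ U hU _ h3)
        have h6 := hlam U hU _ h3 _ h5
        have h7 : g * y = y * g * (y⁻¹ * g⁻¹ * y * g)⁻¹ := by group
        rw [h7, h6]
        group
      rw [Subgroup.mem_centralizer_iff]
      intro g hg
      have h3 := h2 hg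
      rw [Subgroup.mem_centralizer_singleton_iff] at h3
      exact h3
    have h2 : N ≤ Subgroup.centralizer (J : Set H) := by
      apply Subgroup.normalClosure_le_normal
      rw [Set.singleton_subset_iff, SetLike.mem_coe]
      have h3 : (Subgroup.centralizer (J : Set H)).Normal := inferInstance
      have h4 := h3.conj_mem y h1 h0
      have e : h0 * y * h0⁻¹ = x := by rw [hy]; group
      rwa [e] at h4
    intro n hn g hg
    exact Subgroup.mem_centralizer_iff.1 (h2 hn) g hg
  -- commutators inside a single-site group vanish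
  have hdag0 : ∀ g ∈ N, ∀ U ∈ I, y⁻¹ * g⁻¹ * y * g ∈ A U → y⁻¹ * g⁻¹ * y * g = 1 := by
    intro g hg U hU h1
    have h5 := hh0 g (by
      ext c
      rw [conjChar_apply]
      congr 3
      have h6 := hNJ g hg c c.2
      rw [mul_assoc, h6, inv_mul_cancel_left]) (hAJ U hU _ h1)
    exact hlam U hU _ h1 _ h5
  have hdag : ∀ k : H, ∀ g ∈ N, ∀ U ∈ I,
      (k⁻¹ * x * k)⁻¹ * g⁻¹ * (k⁻¹ * x * k) * g ∈ A U →
      (k⁻¹ * x * k)⁻¹ * g⁻¹ * (k⁻¹ * x * k) * g = 1 := by
    intro k g hg U hU h1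
    have h2 := hAconj (h0⁻¹ * k) U _ h1
    have e : h0⁻¹ * k * ((k⁻¹ * x * k)⁻¹ * g⁻¹ * (k⁻¹ * x * k) * g) * (h0⁻¹ * k)⁻¹ =
        y⁻¹ * ((h0⁻¹ * k) * g * (h0⁻¹ * k)⁻¹)⁻¹ * y * ((h0⁻¹ * k) * g * (h0⁻¹ * k)⁻¹) := by
      rw [hy]
      group
    rw [e] at h2
    have h3 := hdag0 _ (hNn.conj_mem g hg _) _ (hIsmul _ _ hU) h2
    rw [← e] at h3
    have h4 := congrArg (fun z => (h0⁻¹ * k)⁻¹ * z * (h0⁻¹ * k)) h3
    have e2 : (h0⁻¹ * k)⁻¹ * (h0⁻¹ * k * ((k⁻¹ * x * k)⁻¹ * g⁻¹ * (k⁻¹ * x * k) * g) *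
        (h0⁻¹ * k)⁻¹) * (h0⁻¹ * k) = (k⁻¹ * x * k)⁻¹ * g⁻¹ * (k⁻¹ * x * k) * g := by group
    rw [e2] at h4
    rw [h4]
    group
  -- the greedy choice
  have hgreedy : ∀ T : Finset (AddSubgroup M), T ⊆ I → ∃ w : AddSubgroup M → M,
      (∀ U ∈ T, w U ∈ U ∧ w U ≠ 0) ∧
      ∀ h : H, (∀ U ∈ I, U ∉ T → ∀ u ∈ U, (h⁻¹ * x * h) • u = u) →
        (∀ U ∈ T, (h⁻¹ * x * h) • w U = w U) → False := by
    intro T
    induction T using Finset.induction_on with
    | empty =>
      intro _
      refine ⟨fun _ => 0, fun U hU => absurd hU (Finset.notMem_empty U), fun h h1 _ => ?_⟩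
      have h2 := htriv _ (fun U hU => h1 U hU (Finset.notMem_empty U))
      apply hx1
      have e : x = h * (h⁻¹ * x * h) * h⁻¹ := by group
      rw [e, h2]
      group
    | insert k T hkT ih =>
      intro hTI
      have hkI : k ∈ I := hTI (Finset.mem_insert_self k T)
      have hTI' : T ⊆ I := (Finset.subset_insert k T).trans hTI
      obtain ⟨w, hw1, hw2⟩ := ih hTI'
      let X : Set H := {z | (∃ h, z = h⁻¹ * x * h) ∧
        (∀ U ∈ I, U ∉ insert k T → ∀ u ∈ U, z • u = u) ∧ ∀ U ∈ T, z • w U = w U}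
      have hXN : ∀ z ∈ X, z ∈ N := by
        rintro z ⟨⟨h, rfl⟩, _⟩
        exact hyN h
      have hXcomm : ∀ a ∈ X, ∀ b ∈ X, a * b = b * a := by
        intro a ha b hb
        obtain ⟨⟨h, hah⟩, ha1, ha2⟩ := ha
        obtain ⟨hbh, hb1, hb2⟩ := hb
        have haN : a ∈ N := by rw [hah]; exact hyN h
        have hbN : b ∈ N := hXN b ⟨hbh, hb1, hb2⟩
        have hc1 : a⁻¹ * b⁻¹ * a * b ∈ ⁅N, N⁆ := by
          have h1 := Subgroup.commutator_mem_commutator (N.inv_mem haN) (N.inv_mem hbN)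
          rw [commutatorElement_def, inv_inv, inv_inv] at h1
          exact h1
        have hfixc : ∀ u : M, a • u = u → b • u = u → (a⁻¹ * b⁻¹ * a * b) • u = u := by
          intro u h1 h2
          rw [mul_smul, mul_smul, mul_smul, h2, h1, inv_smul_eq_iff.2 h2.symm,
            inv_smul_eq_iff.2 h1.symm]
        have hc2 : a⁻¹ * b⁻¹ * a * b ∈ A k := by
          refine ⟨hc1, fun U hU hUk u hu => ?_⟩
          by_cases hUT : U ∈ T
          · exact (hμ U hU).2 _ hc1 (w U) (hw1 U hUT).1 (hw1 U hUT).2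
              (hfixc _ (ha2 U hUT) (hb2 U hUT)) u hu
          · have h1 : U ∉ insert k T := by
              rw [Finset.mem_insert]
              push Not
              exact ⟨hUk, hUT⟩
            exact hfixc u (ha1 U hU h1 u hu) (hb1 U hU h1 u hu)
        have hc3 : a⁻¹ * b⁻¹ * a * b = 1 := by
          rw [hah] at hc2 ⊢
          exact hdag h b hbN k hkI hc2
        have e : a * b = b * a * (a⁻¹ * b⁻¹ * a * b) := by group
        rw [e, hc3, mul_one]
      let Q : Subgroup H := Subgroup.closure X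
      have hQN : Q ≤ N := (Subgroup.closure_le N).2 hXN
      have hQcomm : ∀ a ∈ Q, ∀ b ∈ Q, a * b = b * a := by
        have h1 : Q ≤ Subgroup.centralizer (X : Set H) := by
          rw [Subgroup.closure_le]
          intro a ha
          rw [SetLike.mem_coe, Subgroup.mem_centralizer_iff]
          intro b hb
          exact hXcomm b hb a ha
        have h2 : Q ≤ Subgroup.centralizer (Q : Set H) := by
          rw [Subgroup.closure_le]
          intro a ha
          rw [SetLike.mem_coe, Subgroup.mem_centralizer_iff]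
          intro b hb
          exact (Subgroup.mem_centralizer_iff.1 (h1 hb) a ha).symm
        intro a ha b hb
        exact (Subgroup.mem_centralizer_iff.1 (h2 ha) b hb).symm
      obtain ⟨v, hvk, hv0, hv⟩ := exists_regular k (hIne k hkI) Q
        (fun q hq u hu => hfixU q (hQN hq) k hkI u hu) hQcomm r hr
        (Nat.Coprime.coprime_dvd_left (Subgroup.card_dvd_of_le hQN) hcop)
      refine ⟨Function.update w k v, ?_, ?_⟩
      · intro U hU
        rcases Finset.mem_insert.1 hU with rfl | hUT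
        · rw [Function.update_self]
          exact ⟨hvk, hv0⟩
        · have hne : U ≠ k := fun h => hkT (h ▸ hUT)
          rw [Function.update_of_ne hne]
          exact hw1 U hUT
      · intro h h1 h2
        have hwT : ∀ U ∈ T, (h⁻¹ * x * h) • w U = w U := by
          intro U hUT
          have hne : U ≠ k := fun h => hkT (h ▸ hUT)
          have := h2 U (Finset.mem_insert_of_mem hUT)
          rwa [Function.update_of_ne hne] at this
        have hzQ : h⁻¹ * x * h ∈ Q := Subgroup.subset_closure ⟨⟨h, rfl⟩, h1, hwT⟩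
        have hzv : (h⁻¹ * x * h) • v = v := by
          have := h2 k (Finset.mem_insert_self k T)
          rwa [Function.update_self] at this
        have hzk := hv _ hzQ hzv
        refine hw2 h (fun U hU hUT u hu => ?_) hwT
        by_cases hUk : U = k
        · subst hUk
          exact hzk u hu
        · exact h1 U hU (by
            rw [Finset.mem_insert]
            push Not
            exact ⟨hUk, hUT⟩) u hu
  obtain ⟨w, hw1, hw2⟩ := hgreedy I (Finset.Subset.refl I)
  obtain ⟨h, hh⟩ := hb (∑ U ∈ I, w U)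
  refine hw2 h (fun U hU hUI => absurd hU hUI) ?_
  have h1 := hind (fun U => (h⁻¹ * x * h) • w U - w U) (fun U hU =>
    U.sub_mem (hfixU _ (hyN h) U hU _ (hw1 U hU).1) (hw1 U hU).1) (by
    rw [Finset.sum_sub_distrib, ← Finset.smul_sum, hh, sub_self])
  intro U hU
  exact sub_eq_zero.1 (h1 U hU)

end Pool.Agent.INW
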