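import Mathlib
import Pool.Agent.INW.Char
import Pool.Agent.INW.LemS
import Pool.Agent.INW.ThmA

/-!
# Nonvanishing elements of finite solvable groups lie in the Fitting subgroup
-/

namespace Pool.Agent.INW

open scoped commutatorElement

universe u v

/-- Nonvanishing elements are preserved by surjective homomorphisms. -/
theorem IsNonvanishing.map {G : Type u} {H : Type v} [Group G] [Group H] {x : G}
    (hx : IsNonvanishing x) (f : G →* H) (hf : Function.Surjective f) :
    IsNonvanishing (f x) := by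
  intro n ρ hρ
  rw [isIrreducible_iff] at hρ
  let ρ' : Representation ℂ G (Fin n → ℂ) := MonoidHom.comp ρ f
  have hρ'v : ∀ g, ρ' g = ρ (f g) := fun g => rfl
  have h1 : ρ'.IsIrreducible := by
    rw [isIrreducible_iff]
    refine ⟨hρ.1, fun U hU => hρ.2 U fun h v hv => ?_⟩
    obtain ⟨g, rfl⟩ := hf h
    exact hU g v hv
  exact hx n ρ' h1

section Dual

/-- The group of linear characters of `V`, written additively. -/
def Dual (V : Type u) [Group V] : Type u := Additive (V →* ℂˣ)

variable {V : Type u} [Group V]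

noncomputable instance : AddCommGroup (Dual V) :=
  inferInstanceAs (AddCommGroup (Additive (V →* ℂˣ)))

/-- Evaluation of a character. -/
def Dual.eval (χ : Dual V) : V →* ℂˣ := Additive.toMul χ

/-- A character as an element of the dual. -/
def Dual.mk (χ : V →* ℂˣ) : Dual V := Additive.ofMul χ

theorem Dual.eval_mk (χ : V →* ℂˣ) : (Dual.mk χ).eval = χ := rfl

theorem Dual.ext {χ ψ : Dual V} (h : ∀ v, χ.eval v = ψ.eval v) : χ = ψ := by
  have : χ.eval = ψ.eval := MonoidHom.ext h
  exact this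

theorem Dual.eval_add (χ ψ : Dual V) (v : V) : (χ + ψ).eval v = χ.eval v * ψ.eval v := rfl

theorem Dual.eval_zero (v : V) : (0 : Dual V).eval v = 1 := rfl

theorem Dual.eval_nsmul (χ : Dual V) (n : ℕ) (v : V) : (n • χ).eval v = χ.eval v ^ n := rfl

noncomputable instance : DistribMulAction (MulAut V) (Dual V) where
  smul α χ := Dual.mk (χ.eval.comp (α⁻¹ : MulAut V).toMonoidHom)
  one_smul χ := rfl
  mul_smul α β χ := by
    apply Dual.ext
    intro v
    change χ.eval ((α * β)⁻¹ v) = χ.eval (β⁻¹ (α⁻¹ v))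
    rw [mul_inv_rev]
    rfl
  smul_zero α := rfl
  smul_add α χ ψ := rfl

theorem Dual.eval_smul (α : MulAut V) (χ : Dual V) (v : V) :
    (α • χ).eval v = χ.eval (α⁻¹ v) := rfl

end Dual

/-- A minimal normal subgroup of a nontrivial finite solvable group. -/
theorem exists_minimal_normal (G : Type*) [Group G] [Finite G] [Group.IsSolvable G] [Nontrivial G] :
    ∃ (V : Subgroup G) (r : ℕ), V.Normal ∧ V ≠ ⊥ ∧ r.Prime ∧
      (∀ a ∈ V, ∀ b ∈ V, a * b = b * a) ∧ (∀ a ∈ V, a ^ r = 1) ∧
      ∀ V' : Subgroup G, V'.Normal → V' ≤ V → V' = ⊥ ∨ V' = V := by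
  classical
  obtain ⟨V, hV⟩ := (Set.toFinite {V : Subgroup G | V.Normal ∧ V ≠ ⊥}).exists_minimal
    ⟨⊤, inferInstance, top_ne_bot⟩
  obtain ⟨hVn, hVb⟩ := hV.prop
  have hmin : ∀ V' : Subgroup G, V'.Normal → V' ≤ V → V' = ⊥ ∨ V' = V := by
    intro V' h1 h2
    by_cases h3 : V' = ⊥
    · exact Or.inl h3
    · exact Or.inr (le_antisymm h2 (hV.le_of_le ⟨h1, h3⟩ h2))
  have hlt : ⁅V, V⁆ < V := Group.IsSolvable.commutator_lt_of_ne_bot hVb
  have hbot : (⁅V, V⁆ : Subgroup G) = ⊥ :=
    (hmin _ (Subgroup.commutator_normal V V) hlt.le).resolve_right hlt.ne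
  have hcomm : ∀ a ∈ V, ∀ b ∈ V, a * b = b * a := by
    intro a ha b hb
    have h1 := Subgroup.commutator_mem_commutator ha hb
    rw [hbot, Subgroup.mem_bot] at h1
    exact commutatorElement_eq_one_iff_mul_comm.1 h1
  have hcard : Nat.card V ≠ 1 := fun h => hVb ((Subgroup.card_eq_one).1 h)
  obtain ⟨r, hr, hrd⟩ := Nat.exists_prime_and_dvd hcard
  have hrf : Fact r.Prime := ⟨hr⟩
  obtain ⟨a, ha⟩ := exists_prime_orderOf_dvd_card' (G := V) r hrd
  let R : Subgroup G :=
    { carrier := {g | g ∈ V ∧ g ^ r = 1}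
      one_mem' := ⟨V.one_mem, one_pow r⟩
      mul_mem' := by
        rintro a b ⟨ha, ha'⟩ ⟨hb, hb'⟩
        refine ⟨V.mul_mem ha hb, ?_⟩
        rw [(show Commute a b from hcomm a ha b hb).mul_pow, ha', hb', one_mul]
      inv_mem' := by
        rintro a ⟨ha, ha'⟩
        exact ⟨V.inv_mem ha, by rw [inv_pow, ha', inv_one]⟩ }
  have hRn : R.Normal := by
    refine ⟨?_⟩
    rintro g ⟨hg, hg'⟩ h
    refine ⟨hVn.conj_mem g hg h, ?_⟩
    rw [conj_pow, hg', mul_one, mul_inv_cancel]
  have hRV : R ≤ V := fun g hg => hg.1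
  have hRb : R ≠ ⊥ := by
    intro h
    have h1 : (a : G) ∈ R := ⟨a.2, by
      have := pow_orderOf_eq_one a
      rw [ha] at this
      exact congrArg Subtype.val this⟩
    rw [h, Subgroup.mem_bot] at h1
    have h2 : a = 1 := Subtype.ext h1
    rw [h2, orderOf_one] at ha
    exact hr.one_lt.ne ha
  have hRV' := (hmin R hRn hRV).resolve_left hRb
  refine ⟨V, r, hVn, hVb, hr, hcomm, ?_, hmin⟩
  intro g hg
  rw [← hRV'] at hg
  exact hg.2

/-- The action of a nonvanishing element on a minimal normal subgroup is trivial if it lies in a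
nilpotent normal subgroup of the induced group. -/
theorem conjNormal_eq_one {G : Type u} [Group G] [Finite G] (V : Subgroup G) [hVn : V.Normal]
    (hVb : V ≠ ⊥) (r : ℕ) [hrp : Fact r.Prime]
    (hcomm : ∀ a ∈ V, ∀ b ∈ V, a * b = b * a) (hexp : ∀ a ∈ V, a ^ r = 1)
    (hmin : ∀ V' : Subgroup G, V'.Normal → V' ≤ V → V' = ⊥ ∨ V' = V)
    {x : G} (hx : IsNonvanishing x)
    (hnil : Group.IsNilpotent (Subgroup.normalClosure
      ({(MulAut.conjNormal : G →* MulAut V).rangeRestrict x} :
        Set (MulAut.conjNormal : G →* MulAut V).range))) :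
    (MulAut.conjNormal : G →* MulAut V) x = 1 := by
  classical
  let cg : CommGroup V :=
    { (inferInstance : Group V) with mul_comm := fun a b => Subtype.ext (hcomm a a.2 b b.2) }
  have hsep : ∀ a b : V, (∀ χ : Dual V, χ.eval a = χ.eval b) → a = b := by
    intro a b h
    exact CommGroup.forall_apply_eq_apply_iff V (M := ℂ) |>.1 (fun φ => h (Dual.mk φ))
  obtain ⟨hfinhom, hcardhom⟩ := card_hom_le V
  have hfin : Finite (Dual V) := hfinhom
  have hcardD : Nat.card (Dual V) ≤ Nat.card V := hcardhom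
  set Φ : G →* MulAut V := MulAut.conjNormal with hΦ
  have hf : FaithfulSMul Φ.range (Dual V) := by
    refine ⟨fun {a b} h => ?_⟩
    apply Subtype.ext
    apply inv_injective
    apply MulEquiv.ext
    intro v
    apply hsep
    intro χ
    have h1 := h χ
    exact congrArg (fun ψ : Dual V => ψ.eval v) h1
  have hne : ∃ m : Dual V, m ≠ 0 := by
    by_contra hcon
    push Not at hcon
    apply hVb
    rw [Subgroup.eq_bot_iff_forall]
    intro a ha
    have h1 := hsep ⟨a, ha⟩ 1 (fun χ => by rw [hcon χ, Dual.eval_zero, Dual.eval_zero])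
    exact congrArg Subtype.val h1
  have hr : ∀ m : Dual V, r • m = 0 := by
    intro m
    apply Dual.ext
    intro v
    rw [Dual.eval_nsmul, Dual.eval_zero, ← map_pow]
    have h1 : v ^ r = 1 := Subtype.ext (hexp v v.2)
    rw [h1, map_one]
  have irr : ∀ S : AddSubgroup (Dual V), (∀ h : Φ.range, ∀ m ∈ S, h • m ∈ S) →
      S = ⊥ ∨ S = ⊤ := by
    intro S hS
    let V' : Subgroup G :=
      { carrier := {g | ∃ hg : g ∈ V, ∀ χ ∈ S, χ.eval ⟨g, hg⟩ = 1}
        one_mem' := ⟨V.one_mem, fun χ _ => map_one _⟩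
        mul_mem' := by
          rintro a b ⟨ha, ha'⟩ ⟨hb, hb'⟩
          refine ⟨V.mul_mem ha hb, fun χ hχ => ?_⟩
          have e : (⟨a * b, V.mul_mem ha hb⟩ : V) = ⟨a, ha⟩ * ⟨b, hb⟩ := rfl
          rw [e, map_mul, ha' χ hχ, hb' χ hχ, one_mul]
        inv_mem' := by
          rintro a ⟨ha, ha'⟩
          refine ⟨V.inv_mem ha, fun χ hχ => ?_⟩
          have e : (⟨a⁻¹, V.inv_mem ha⟩ : V) = ⟨a, ha⟩⁻¹ := rfl
          rw [e, map_inv, ha' χ hχ, inv_one] }
    have hV'V : V' ≤ V := fun g hg => hg.1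
    have hV'n : V'.Normal := by
      refine ⟨?_⟩
      rintro g ⟨hg, hg'⟩ h
      refine ⟨hVn.conj_mem g hg h, fun χ hχ => ?_⟩
      have h1 := hg' _ (hS ⟨Φ h⁻¹, h⁻¹, rfl⟩ χ hχ)
      rw [show ((⟨Φ h⁻¹, h⁻¹, rfl⟩ : Φ.range) • χ : Dual V).eval ⟨g, hg⟩ =
        χ.eval ((Φ h⁻¹)⁻¹ ⟨g, hg⟩) from rfl, ← map_inv, inv_inv] at h1
      exact h1
    rcases hmin V' hV'n hV'V with h | h
    · -- `S` separates points
      right
      have hcardS : Nat.card V ≤ Nat.card S := by
        obtain ⟨hfinS, hcS⟩ := card_hom_le (Multiplicative S)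
        refine le_trans ?_ hcS
        let F : V → (Multiplicative S →* ℂˣ) := fun v =>
          { toFun := fun χ => ((Multiplicative.toAdd χ : S) : Dual V).eval v
            map_one' := rfl
            map_mul' := fun _ _ => rfl }
        refine Nat.card_le_card_of_injective F ?_
        intro a b hab
        have h1 : ((a * b⁻¹ : V) : G) ∈ V' := by
          refine ⟨(a * b⁻¹).2, fun χ hχ => ?_⟩
          have h2 : χ.eval a = χ.eval b :=
            congrArg (fun f : Multiplicative S →* ℂˣ => f (Multiplicative.ofAdd ⟨χ, hχ⟩)) hab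
          change χ.eval (a * b⁻¹) = 1
          rw [map_mul, map_inv, h2, mul_inv_cancel]
        rw [h, Subgroup.mem_bot] at h1
        have h2 : a * b⁻¹ = 1 := Subtype.ext h1
        exact mul_inv_eq_one.1 h2
      apply AddSubgroup.eq_top_of_card_eq
      refine le_antisymm ?_ (hcardD.trans hcardS)
      exact Nat.card_le_card_of_injective _ S.subtype_injective
    · left
      rw [AddSubgroup.eq_bot_iff_forall]
      intro χ hχ
      apply Dual.ext
      intro v
      have hv : (v : G) ∈ V' := by rw [h]; exact v.2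
      exact hv.2 χ hχ
  have hx' : IsNonvanishing (Φ.rangeRestrict x) :=
    hx.map Φ.rangeRestrict Φ.rangeRestrict_surjective
  have hb : ∀ m : Dual V, ∃ h : Φ.range, (h⁻¹ * Φ.rangeRestrict x * h) • m = m := by
    intro χ
    obtain ⟨h, hh⟩ := hx.exists_conj V χ.eval
    refine ⟨Φ.rangeRestrict h, ?_⟩
    rw [← map_inv, ← map_mul, ← map_mul]
    set y := h⁻¹ * x * h with hy
    apply Dual.ext
    intro v
    have h1 : ((Φ.rangeRestrict y) • χ : Dual V).eval v = χ.eval ((Φ y)⁻¹ v) := rfl
    rw [h1, ← map_inv]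
    have hmem : y⁻¹ * (v : G)⁻¹ * y * v ∈ V := by
      have := hVn.conj_mem _ (V.inv_mem v.2) y⁻¹
      rw [inv_inv] at this
      exact V.mul_mem this v.2
    have h2 := hh v (by
      ext c
      rw [conjChar_apply]
      congr 3
      have h6 := hcomm c c.2 v v.2
      rw [mul_assoc, h6, inv_mul_cancel_left]) hmem
    have e : (⟨y⁻¹ * (v : G)⁻¹ * y * v, hmem⟩ : V) = (Φ y⁻¹ v)⁻¹ * v := by
      apply Subtype.ext
      change y⁻¹ * (v : G)⁻¹ * y * v = (((Φ y⁻¹) v : V) : G)⁻¹ * v
      rw [hΦ, MulAut.conjNormal_apply]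
      group
    rw [e, map_mul, map_inv, inv_mul_eq_one] at h2
    exact h2
  have h1 := thmA r hr hne irr hx' hb
  exact congrArg Subtype.val h1

/-- **Main theorem.** Every nonvanishing element of a finite solvable group lies in a nilpotent
normal subgroup. -/
theorem exists_nilpotent_normal {G : Type u} [Group G] [Finite G] [Group.IsSolvable G]
    {x : G} (hx : IsNonvanishing x) :
    ∃ N : Subgroup G, N.Normal ∧ Group.IsNilpotent N ∧ x ∈ N := by
  suffices h : ∀ (n : ℕ) (G : Type u) [Group G] [Finite G] [Group.IsSolvable G] (x : G),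
      Nat.card G = n → IsNonvanishing x →
      ∃ N : Subgroup G, N.Normal ∧ Group.IsNilpotent N ∧ x ∈ N from h _ G x rfl hx
  clear hx x
  intro n
  induction n using Nat.strong_induction_on with
  | _ n ih =>
  intro G _ _ _ x hn hx
  by_cases hnt : Nontrivial G
  swap
  · rw [not_nontrivial_iff_subsingleton] at hnt
    exact ⟨⊥, inferInstance, inferInstance, Subsingleton.elim _ _⟩
  obtain ⟨V, r, hVn, hVb, hr, hcomm, hexp, hmin⟩ := exists_minimal_normal G
  have hrp : Fact r.Prime := ⟨hr⟩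
  have hVcard : 1 < Nat.card V := by
    have h1 : Nat.card V ≠ 1 := fun h => hVb ((Subgroup.card_eq_one).1 h)
    have h2 : 0 < Nat.card V := Nat.card_pos
    omega
  set Φ : G →* MulAut V := MulAut.conjNormal with hΦ
  have hΦker : ∀ g, Φ g = 1 ↔ ∀ v ∈ V, g * v = v * g := by
    intro g
    constructor
    · intro h v hv
      have h1 := congrArg (fun f : MulAut V => ((f ⟨v, hv⟩ : V) : G)) h
      simp only [hΦ, MulAut.conjNormal_apply] at h1
      rw [mul_inv_eq_iff_eq_mul] at h1
      exact h1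
    · intro h
      apply MulEquiv.ext
      intro v
      apply Subtype.ext
      rw [hΦ, MulAut.conjNormal_apply, h v v.2]
      simp
  -- the induced group is smaller
  have hcard1 : Nat.card Φ.range < n := by
    have h1 := Φ.ker.card_eq_card_quotient_mul_card_subgroup
    have h2 : Nat.card (G ⧸ Φ.ker) = Nat.card Φ.range :=
      Nat.card_congr (QuotientGroup.quotientKerEquivRange Φ).toEquiv
    have h3 : V ≤ Φ.ker := by
      intro v hv
      rw [MonoidHom.mem_ker, hΦker]
      exact fun w hw => hcomm v hv w hw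
    have h4 : Nat.card V ≤ Nat.card Φ.ker :=
      Nat.le_of_dvd Nat.card_pos (Subgroup.card_dvd_of_le h3)
    have h5 : 0 < Nat.card Φ.range := Nat.card_pos
    rw [hn, h2] at h1
    rw [h1]
    nlinarith
  have hsol : Group.IsSolvable Φ.range :=
    Group.isSolvable_of_surjective Φ.rangeRestrict_surjective
  obtain ⟨K1, hK1n, hK1nil, hxK1⟩ := ih _ hcard1 Φ.range (Φ.rangeRestrict x) rfl
    (hx.map _ Φ.rangeRestrict_surjective)
  have hnil : Group.IsNilpotent (Subgroup.normalClosure
      ({Φ.rangeRestrict x} : Set Φ.range)) := by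
    have hle : Subgroup.normalClosure ({Φ.rangeRestrict x} : Set Φ.range) ≤ K1 :=
      Subgroup.normalClosure_le_normal (by simpa using hxK1)
    exact Group.nilpotent_of_surjective (Subgroup.subgroupOfEquivOfLe hle).toMonoidHom
      (Subgroup.subgroupOfEquivOfLe hle).surjective
  have hxC : Φ x = 1 := conjNormal_eq_one V hVb r hcomm hexp hmin hx hnil
  -- the quotient by `V`
  have hcard2 : Nat.card (G ⧸ V) < n := by
    have h1 := V.card_eq_card_quotient_mul_card_subgroup
    have h5 : 0 < Nat.card (G ⧸ V) := Nat.card_pos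
    rw [hn] at h1
    rw [h1]
    nlinarith
  obtain ⟨K2, hK2n, hK2nil, hxK2⟩ := ih _ hcard2 (G ⧸ V) (QuotientGroup.mk' V x) rfl
    (hx.map _ (QuotientGroup.mk'_surjective V))
  refine ⟨K2.comap (QuotientGroup.mk' V) ⊓ Φ.ker, inferInstance, ?_, hxK2, hxC⟩
  set D := K2.comap (QuotientGroup.mk' V) ⊓ Φ.ker with hD
  let f : D →* K2 := ((QuotientGroup.mk' V).comp D.subtype).codRestrict K2 (fun d => d.2.1)
  refine Subgroup.isNilpotent_of_ker_le_center f ?_
  intro d hd
  rw [MonoidHom.mem_ker] at hd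
  have h1 : QuotientGroup.mk' V (d : G) = 1 := congrArg Subtype.val hd
  have h2 : (d : G) ∈ V := by
    rwa [← MonoidHom.mem_ker, QuotientGroup.ker_mk'] at h1
  rw [Subgroup.mem_center_iff]
  intro g
  apply Subtype.ext
  exact (hΦker g).1 g.2.2 d h2

end Pool.Agent.INW
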